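import Pool.Agent.H254Z.GB.Rec

set_option autoImplicit false

namespace Pool.Agent.H254Z.GB

open Pool.Agent.H597Z.Ur

variable {S : Str.{0}} {n : ℕ}

/-- `z` injects into the urelements outside `A` -/
def InjO (S : Str.{0}) (z A : S.M) : Prop :=
  ∃ g, (∀ b, S.mem b z → ∃ c, Pr S g b c) ∧
    (∀ b c, Pr S g b c → S.mem b z ∧ S.ur c ∧ ¬ S.mem c A) ∧
    (∀ b c c', Pr S g b c → Pr S g b c' → c = c') ∧ ∀ b b' c, Pr S g b c → Pr S g b' c → b = b'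

instance Df.injO (a b : (Fin n → S.M) → S.M) [Tm a] [Tm b] : Df (fun v => InjO S (a v) (b v)) :=
  Df.app2 (P := fun x y => InjO S x y) (by unfold InjO; infer_instance) a b

theorem ZFCUR.compare (h : ZFCUR S) {r z : S.M} (hr : WO S r z) (B A A' : S.M)
    (hB : ∀ b, S.mem b B → S.ur b ∧ ¬ S.mem b A)
    (hseg : ∀ a, S.mem a z → ∀ y, (∀ c, S.mem c y ↔ Lt S r z c a) → InjO S y A') :
    InjO S z A ∨ InjO S B A' := by
  obtain ⟨s, hs⟩ := h.wo B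
  obtain ⟨F, hF, hrec⟩ := h.recur (fun c a => Lt S r z c a)
    (fun _ g b => (S.mem b B ∧ (¬ ∃ c, Pr S g c b) ∧
      ∀ b', S.mem b' B → (¬ ∃ c, Pr S g c b') → Pr S s b b') ∨
      (b = B ∧ ∀ b', S.mem b' B → ∃ c, Pr S g c b')) (h.wo_wf hr) (h.wo_cl r z) (by
    intro _ g
    by_cases h1 : ∃ b, S.mem b B ∧ ¬ ∃ c, Pr S g c b
    · obtain ⟨b, hb, hb'⟩ := h.wo_least hs (fun b => ¬ ∃ c, Pr S g c b) h1
      refine ⟨b, Or.inl hb, ?_⟩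
      rintro b' (h2 | h2)
      · exact hb' b' h2
      · obtain ⟨b0, h3, h4⟩ := h1
        exact absurd (h2.2 b0 h3) h4
    · refine ⟨B, Or.inr ⟨rfl, fun b' hb' => ?_⟩, ?_⟩
      · by_contra h2
        exact h1 ⟨b', hb', h2⟩
      · rintro b' (h2 | h2)
        · exact absurd ⟨b', h2.1, h2.2.1⟩ h1
        · exact h2.1)
  have hF' : ∀ {n : ℕ} (a b : (Fin n → S.M) → S.M) [Tm a] [Tm b], Df (fun v => F (a v) = b v) :=
    fun a b _ _ => Df.app2 (P := fun x y => F x = y) hF a b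
  have inj : ∀ c c', Lt S r z c c' → S.mem (F c') B → F c ≠ F c' := by
    intro c c' h1 h2 h3
    obtain ⟨g, g1, g2 | g2⟩ := hrec c'
    · exact g2.2.1 ⟨c, (g1 c _).2 ⟨h1, h3⟩⟩
    · rw [g2.1] at h2
      exact h.irrefl B h2
  have inj' : ∀ c c', S.mem c z → S.mem c' z → S.mem (F c') B → F c = F c' → c = c' := by
    intro c c' h1 h2 h3 h4
    rcases h.wo_tri hr h1 h2 with h5 | h5 | h5
    · exact absurd h4 (inj c c' h5 h3)
    · exact h5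
    · exact absurd h4.symm (inj c' c h5 (h4 ▸ h3))
  by_cases h1 : ∀ a, S.mem a z → S.mem (F a) B
  · left
    obtain ⟨g, -, hg⟩ := h.graph (fun a b => F a = b) z (fun _ _ _ _ h2 h3 => h2.symm.trans h3)
    refine ⟨g, fun b hb => ⟨F b, (hg _ _).2 ⟨hb, rfl⟩⟩, fun b c h2 => ?_, fun b c c' h2 h3 => ?_,
      fun b b' c h2 h3 => ?_⟩
    · obtain ⟨h3, rfl⟩ := (hg _ _).1 h2
      exact ⟨h3, hB _ (h1 b h3)⟩
    · exact ((hg _ _).1 h2).2.symm.trans ((hg _ _).1 h3).2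
    · obtain ⟨h4, h5⟩ := (hg _ _).1 h2
      obtain ⟨h6, h7⟩ := (hg _ _).1 h3
      exact inj' b b' h4 h6 (h1 b' h6) (h5.trans h7.symm)
  · right
    push Not at h1
    obtain ⟨a, ha, h2⟩ := h1
    obtain ⟨g, g1, g2 | g2⟩ := hrec a
    · exact absurd g2.1 h2
    obtain ⟨y, -, hy⟩ := h.sep (fun c => Lt S r z c a) z
    obtain ⟨k, k1, k2, k3, k4⟩ := hseg a ha y
      (fun c => (hy c).trans ⟨fun h3 => h3.2, fun h3 => ⟨h3.1, h3⟩⟩)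
    have fn : ∀ b, S.mem b B → ∀ u u', (∃ c, Lt S r z c a ∧ F c = b ∧ Pr S k c u) →
        (∃ c, Lt S r z c a ∧ F c = b ∧ Pr S k c u') → u = u' := by
      rintro b hb u u' ⟨c, a1, a2, a3⟩ ⟨c', b1, b2, b3⟩
      have e := inj' c c' a1.1 b1.1 (b2 ▸ hb) (a2.trans b2.symm)
      subst e
      exact k3 c u u' a3 b3
    obtain ⟨f, -, hf⟩ := h.graph (fun b u => ∃ c, Lt S r z c a ∧ F c = b ∧ Pr S k c u) B fn
    refine ⟨f, fun b hb => ?_, fun b u h3 => ?_, fun b u u' h3 h4 => ?_, fun b b' u h3 h4 => ?_⟩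
    · obtain ⟨c, hc⟩ := g2.2 b hb
      obtain ⟨h3, h4⟩ := (g1 c b).1 hc
      obtain ⟨u, hu⟩ := k1 c ((hy c).2 ⟨h3.1, h3⟩)
      exact ⟨u, (hf _ _).2 ⟨hb, c, h3, h4, hu⟩⟩
    · obtain ⟨h4, c, -, -, h5⟩ := (hf _ _).1 h3
      exact ⟨h4, (k2 c u h5).2⟩
    · exact fn b ((hf _ _).1 h3).1 u u' ((hf _ _).1 h3).2 ((hf _ _).1 h4).2
    · obtain ⟨-, c, -, a2, a3⟩ := (hf _ _).1 h3
      obtain ⟨-, c', -, b2, b3⟩ := (hf _ _).1 h4
      rw [← a2, ← b2, k4 c c' u a3 b3]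

/-- duplication over `A` -/
def Dup (S : Str.{0}) (A : S.M) : Prop :=
  ∀ B A', (∀ b, S.mem b B → S.ur b ∧ ¬ S.mem b A) → (∀ a, S.mem a A → S.mem a A') → InjO S B A'

theorem ZFCUR.exists_dup (h : ZFCUR S) (A0 : S.M) :
    ∃ A, (∀ a, S.mem a A0 → S.mem a A) ∧ Dup S A := by
  by_cases h0 : Dup S A0
  · exact ⟨A0, fun _ ha => ha, h0⟩
  unfold Dup at h0
  push Not at h0
  obtain ⟨B0, A1, -, h1, h2⟩ := h0
  obtain ⟨r, hr⟩ := h.wo B0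
  have main : ∀ z, (∀ c, S.mem c z → S.mem c B0) →
      (∀ a, S.mem a z → ∀ c, Lt S r B0 c a → S.mem c z) →
      (∃ A, (∀ a, S.mem a A0 → S.mem a A) ∧ ¬ InjO S z A) →
      (∀ a, S.mem a z → ∀ y, (∀ c, S.mem c y ↔ Lt S r B0 c a) →
        ∀ A, (∀ a, S.mem a A0 → S.mem a A) → InjO S y A) →
      ∃ A, (∀ a, S.mem a A0 → S.mem a A) ∧ Dup S A := by
    rintro z z1 z2 ⟨A, h3, h4⟩ z3
    refine ⟨A, h3, fun B A' hB hA' => ?_⟩
    have hz : WO S r z := ⟨fun a b ha hb => hr.1 a b (z1 a ha) (z1 b hb),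
      fun a b c ha hb hc => hr.2.1 a b c (z1 a ha) (z1 b hb) (z1 c hc),
      fun y hy => hr.2.2 y (fun t ht => z1 t (hy t ht))⟩
    refine (h.compare hz B A A' hB fun a ha y hy => ?_).resolve_left h4
    refine z3 a ha y (fun c => (hy c).trans ⟨fun h5 => ⟨z1 c h5.1, z1 a ha, h5.2.2⟩,
      fun h5 => ⟨z2 a ha c h5, ha, h5.2.2⟩⟩) A' fun t ht => hA' t (h3 t ht)
  by_cases h3 : ∃ a, S.mem a B0 ∧ ∃ y, (∀ c, S.mem c y ↔ Lt S r B0 c a) ∧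
      ∃ A, (∀ a, S.mem a A0 → S.mem a A) ∧ ¬ InjO S y A
  · obtain ⟨s, -, hs⟩ := h.sep (fun a => ∃ y, (∀ c, S.mem c y ↔ Lt S r B0 c a) ∧
      ∃ A, (∀ a, S.mem a A0 → S.mem a A) ∧ ¬ InjO S y A) B0
    obtain ⟨a0, h4⟩ := h3
    obtain ⟨a, ha, h5⟩ := h.wo_wf hr s ⟨a0, (hs a0).2 h4⟩
    obtain ⟨-, z, hz, hz'⟩ := (hs a).1 ha
    refine main z (fun c hc => ((hz c).1 hc).1)
      (fun b hb c hc => (hz c).2 (hr.lt_trans hc ((hz b).1 hb))) hz' fun b hb y hy A hA => ?_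
    by_contra h6
    exact h5 b ((hs b).2 ⟨((hz b).1 hb).1, y, hy, A, hA, h6⟩) ((hz b).1 hb)
  · refine main B0 (fun _ hc => hc) (fun _ _ _ hc => hc.1) ⟨A1, h1, h2⟩ fun b hb y hy A hA => ?_
    by_contra h6
    exact h3 ⟨b, hb, y, hy, A, hA, h6⟩

/-- involutive automorphisms -/
structure Aut (S : Str.{0}) (θ : S.M → S.M) : Prop where
  inv : ∀ x, θ (θ x) = x
  mem : ∀ x y, S.mem (θ x) (θ y) ↔ S.mem x y
  ur : ∀ x, S.ur (θ x) ↔ S.ur x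

/-- swapping along `g` -/
def Sw (S : Str.{0}) (g a b : S.M) : Prop :=
  Pr S g a b ∨ Pr S g b a ∨ (a = b ∧ (∀ c, ¬ Pr S g a c) ∧ ∀ c, ¬ Pr S g c a)

instance Df.sw (a b c : (Fin n → S.M) → S.M) [Tm a] [Tm b] [Tm c] :
    Df (fun v => Sw S (a v) (b v) (c v)) :=
  Df.app3 (P := fun x y z => Sw S x y z) (by unfold Sw; infer_instance) a b c

theorem ZFCUR.exists_aut (h : ZFCUR S) {A : S.M} (hA : Dup S A) (B : S.M) :
    ∃ θ, Aut S θ ∧ (∀ x, In S A x → θ x = x) ∧ ∀ x, In S B x → In S B (θ x) → In S A x := by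
  obtain ⟨B', -, hB'⟩ := h.sep (fun b => S.ur b ∧ ¬ S.mem b A) B
  obtain ⟨A', -, hA'⟩ := h.zcu.union2 A B
  obtain ⟨g, g1, g2, g3, g4⟩ := hA B' A' (fun b hb => ((hB' b).1 hb).2)
    (fun a ha => (hA' a).2 (Or.inl ha))
  have g5 : ∀ a b c, Pr S g a b → ¬ Pr S g b c := fun a b c h1 h2 =>
    (g2 a b h1).2.2 ((hA' b).2 (Or.inr ((hB' b).1 (g2 b c h2).1).1))
  have swu : ∀ a b b', Sw S g a b → Sw S g a b' → b = b' := by
    rintro a b b' (h1 | h1 | h1) (h2 | h2 | h2)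
    · exact g3 a b b' h1 h2
    · exact absurd h1 (g5 b' a b h2)
    · exact absurd h1 (h2.2.1 b)
    · exact absurd h2 (g5 b a b' h1)
    · exact g4 b b' a h1 h2
    · exact absurd h1 (h2.2.2 b)
    · exact absurd h2 (h1.2.1 b')
    · exact absurd h2 (h1.2.2 b')
    · exact h1.1.symm.trans h2.1
  have swx : ∀ a, ∃ b, Sw S g a b := by
    intro a
    by_cases h1 : ∃ c, Pr S g a c
    · obtain ⟨c, hc⟩ := h1
      exact ⟨c, Or.inl hc⟩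
    by_cases h2 : ∃ c, Pr S g c a
    · obtain ⟨c, hc⟩ := h2
      exact ⟨c, Or.inr (Or.inl hc)⟩
    exact ⟨a, Or.inr (Or.inr ⟨rfl, fun c hc => h1 ⟨c, hc⟩, fun c hc => h2 ⟨c, hc⟩⟩)⟩
  have sws : ∀ a b, Sw S g a b → Sw S g b a := by
    rintro a b (h1 | h1 | ⟨rfl, h1⟩)
    · exact Or.inr (Or.inl h1)
    · exact Or.inl h1
    · exact Or.inr (Or.inr ⟨rfl, h1⟩)
  have swr : ∀ a b, Sw S g a b → S.ur a → S.ur b := by
    rintro a b (h1 | h1 | ⟨rfl, h1⟩) h2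
    · exact (g2 a b h1).2.1
    · exact ((hB' b).1 (g2 b a h1).1).2.1
    · exact h2
  obtain ⟨θ, hθ, hrec⟩ := h.recur (fun c a => S.mem c a)
    (fun a f b => (S.ur a ∧ Sw S g a b) ∨
      (¬ S.ur a ∧ ¬ S.ur b ∧ ∀ t, S.mem t b ↔ ∃ c, Pr S f c t))
    (fun y hy => by
      obtain ⟨a, h1, h2⟩ := h.zcu.found y hy
      exact ⟨a, h1, fun c h3 h4 => h2 c h4 h3⟩) h.exists_tc (by
    intro a f
    by_cases ha : S.ur a
    · obtain ⟨b, hb⟩ := swx a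
      refine ⟨b, Or.inl ⟨ha, hb⟩, ?_⟩
      rintro b' (h1 | h1)
      · exact swu a b' b h1.2 hb
      · exact absurd ha h1.1
    · obtain ⟨b, h1, h2⟩ := h.ran f
      refine ⟨b, Or.inr ⟨ha, h1, h2⟩, ?_⟩
      rintro b' (h3 | h3)
      · exact absurd h3.1 ha
      · exact h.zcu.ext b' b h3.2.1 h1 fun t => (h3.2.2 t).trans (h2 t).symm)
  have hθ' : ∀ {n : ℕ} (a b : (Fin n → S.M) → S.M) [Tm a] [Tm b], Df (fun v => θ (a v) = b v) :=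
    fun a b _ _ => Df.app2 (P := fun x y => θ x = y) hθ a b
  have t1 : ∀ a, S.ur a → Sw S g a (θ a) := by
    intro a ha
    obtain ⟨f, -, h1 | h1⟩ := hrec a
    · exact h1.2
    · exact absurd ha h1.1
  have t2 : ∀ a, ¬ S.ur a → ¬ S.ur (θ a) ∧ ∀ t, S.mem t (θ a) ↔ ∃ c, S.mem c a ∧ θ c = t := by
    intro a ha
    obtain ⟨f, h0, h1 | h1⟩ := hrec a
    · exact absurd h1.1 ha
    · exact ⟨h1.2.1, by simpa only [h0] using h1.2.2⟩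
  have inv : ∀ x, θ (θ x) = x := by
    intro x
    refine h.mem_ind (fun x => ∀ y, θ x = y → θ y = x) ?_ x _ rfl
    rintro x ih _ rfl
    by_cases hx : S.ur x
    · exact swu _ _ _ (t1 _ (swr _ _ (t1 x hx) hx)) (sws _ _ (t1 x hx))
    · obtain ⟨h1, h2⟩ := t2 x hx
      obtain ⟨h3, h4⟩ := t2 _ h1
      refine h.zcu.ext _ _ h3 hx fun t => (h4 t).trans ⟨?_, fun ht => ?_⟩
      · rintro ⟨c, h5, rfl⟩
        obtain ⟨d, h6, rfl⟩ := (h2 c).1 h5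
        rw [ih d h6 _ rfl]; exact h6
      · exact ⟨θ t, (h2 _).2 ⟨t, ht, rfl⟩, ih t ht _ rfl⟩
  have m1 : ∀ x y, S.mem x y → S.mem (θ x) (θ y) := fun x y hxy =>
    ((t2 y fun hy => h.zcu.urEmpty y x hy hxy).2 _).2 ⟨x, hxy, rfl⟩
  refine ⟨θ, ⟨inv, fun x y => ⟨fun h1 => ?_, m1 x y⟩, fun x => ⟨fun h1 => ?_, fun h1 => ?_⟩⟩,
    ?_, fun x h1 h2 => ?_⟩
  · simpa only [inv] using m1 _ _ h1
  · by_contra h2
    exact (t2 x h2).1 h1
  · exact swr _ _ (t1 x h1) h1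
  · refine h.mem_ind (fun x => In S A x → θ x = x) ?_
    intro x ih hx
    by_cases hu : S.ur x
    · refine swu x _ _ (t1 x hu) (Or.inr (Or.inr ⟨rfl, fun c hc => ?_, fun c hc => ?_⟩))
      · exact ((hB' x).1 (g2 x c hc).1).2.2 (hx.ur hu)
      · exact (g2 c x hc).2.2 ((hA' x).2 (Or.inl (hx.ur hu)))
    · obtain ⟨h1, h2⟩ := t2 x hu
      refine h.zcu.ext _ _ h1 hu fun t => (h2 t).trans ⟨?_, fun ht => ⟨t, ht, ih t ht (hx.mem ht)⟩⟩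
      rintro ⟨c, h5, rfl⟩
      rw [ih c h5 (hx.mem h5)]; exact h5
  · refine h.mem_ind (fun x => In S B x → ∀ y, θ x = y → In S B y → In S A x) ?_ x h1 _ rfl h2
    rintro x ih h3 _ rfl h4
    refine h.in_of (fun hu => ?_) fun y hy => ih y hy (h3.mem hy) _ rfl (h4.mem (m1 y x hy))
    by_contra h5
    obtain ⟨c, hc⟩ := g1 x ((hB' x).2 ⟨h3.ur hu, hu, h5⟩)
    have e := swu x _ _ (t1 x hu) (Or.inl hc)
    rw [e] at h4
    exact (g2 x c hc).2.2 ((hA' c).2 (Or.inr (h4.ur (g2 x c hc).2.1)))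

end Pool.Agent.H254Z.GB
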