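import Pool.Agent.H254Z.GB.Auto

set_option autoImplicit false
set_option synthInstance.maxSize 2000

namespace Pool.Agent.H254Z.GB

open Pool.Agent.H597Z.Ur

variable {S : Str.{0}} {n : ℕ}

/-- inclusion -/
def Sub (S : Str.{0}) (p q : S.M) : Prop := ∀ t, S.mem t p → S.mem t q

instance Df.sub (a b : (Fin n → S.M) → S.M) [Tm a] [Tm b] : Df (fun v => Sub S (a v) (b v)) :=
  Df.app2 (P := fun x y => Sub S x y) (by unfold Sub; infer_instance) a b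

theorem Sub.refl (p : S.M) : Sub S p p := fun _ h => h

theorem Sub.trans {p q r : S.M} (h1 : Sub S p q) (h2 : Sub S q r) : Sub S p r :=
  fun t ht => h2 t (h1 t ht)

theorem Pr.mono {p q x y : S.M} (h1 : Pr S p x y) (h2 : Sub S p q) : Pr S q x y := by
  obtain ⟨t, h3, h4⟩ := h1
  exact ⟨t, h2 t h3, h4⟩

/-- extensions of least rank -/
def Step (P : S.M → Prop) (E : S.M → S.M → Prop) (a q q' : S.M) : Prop :=
  (P q' ∧ Sub S q q' ∧ E a q') ∧ ∀ q'', P q'' ∧ Sub S q q'' ∧ E a q'' → Rk S q' q''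

theorem ZFCUR.dc (h : ZFCUR S) (A w p : S.M) (P : S.M → Prop) (E : S.M → S.M → Prop)
    [hP : Df (fun v : Fin 1 → S.M => P (v 0))] [hE : Df (fun v : Fin 2 → S.M => E (v 0) (v 1))]
    (hin : ∀ q, P q → In S A q) (hp : P p)
    (hd : ∀ a, S.mem a w → ∀ q, P q → ∃ q', P q' ∧ Sub S q q' ∧ E a q')
    (hch : ∀ Y u, (∀ q, S.mem q Y → P q) →
      (∀ q q', S.mem q Y → S.mem q' Y → Sub S q q' ∨ Sub S q' q) → Un S u Y → P u) :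
    ∃ q, P q ∧ Sub S p q ∧ ∀ a, S.mem a w → ∃ q', Sub S q' q ∧ P q' ∧ E a q' := by
  have hP' : ∀ {n : ℕ} (a : (Fin n → S.M) → S.M) [Tm a], Df (fun v => P (a v)) :=
    fun a _ => hP.app1 a
  have hE' : ∀ {n : ℕ} (a b : (Fin n → S.M) → S.M) [Tm a] [Tm b], Df (fun v => E (a v) (b v)) :=
    fun a b _ _ => hE.app2 a b
  have hS : Df (fun v : Fin 3 → S.M => Step P E (v 0) (v 1) (v 2)) := by
    unfold Step; infer_instance
  have hS' : ∀ {n : ℕ} (a b c : (Fin n → S.M) → S.M) [Tm a] [Tm b] [Tm c],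
      Df (fun v => Step P E (a v) (b v) (c v)) := fun a b c _ _ _ => hS.app3 a b c
  have stx : ∀ a, S.mem a w → ∀ q, P q → ∃ q', Step P E a q q' := by
    intro a ha q hq
    obtain ⟨q0, h0⟩ := hd a ha q hq
    exact h.rk_min (fun q' => P q' ∧ Sub S q q' ∧ E a q') h0
  have sts : ∀ a q, ∃! s, ¬ S.ur s ∧ ∀ q', S.mem q' s ↔ Step P E a q q' := by
    intro a q
    refine existsUnique_of_exists_of_unique ?_ fun s s' h1 h2 =>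
      h.zcu.ext s s' h1.1 h2.1 fun t => (h1.2 t).trans (h2.2 t).symm
    by_cases h1 : ∃ q0, Step P E a q q0
    · obtain ⟨q0, h0⟩ := h1
      obtain ⟨s0, -, hs0⟩ := h.rk_set A q0
      obtain ⟨s, h2, hs⟩ := h.sep (fun q' => Step P E a q q') s0
      exact ⟨s, h2, fun q' => (hs q').trans ⟨fun h3 => h3.2, fun h3 =>
        ⟨(hs0 q').2 ⟨hin q' h3.1.1, h3.2 q0 h0.1⟩, h3⟩⟩⟩
    · obtain ⟨e, h2, h3⟩ := h.empty
      exact ⟨e, h2, fun q' => ⟨fun h4 => absurd h4 (h3 q'), fun h4 => absurd ⟨q', h4⟩ h1⟩⟩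
  obtain ⟨r, hr⟩ := h.wo w
  obtain ⟨U, hU, recU⟩ := h.recur (fun c a => Lt S r w c a)
    (fun a g V => ¬ S.ur V ∧ ∀ q', S.mem q' V ↔ ∃ q, ¬ S.ur q ∧
      (∀ t, S.mem t q → S.mem t p ∨ ∃ c V' q0, Pr S g c V' ∧ S.mem q0 V' ∧ S.mem t q0) ∧
      Step P E a q q') (h.wo_wf hr) (h.wo_cl r w) (by
    intro a g
    refine existsUnique_of_exists_of_unique ?_ fun s s' h1 h2 =>
      h.zcu.ext s s' h1.1 h2.1 fun t => (h1.2 t).trans (h2.2 t).symm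
    obtain ⟨b1, -, h1⟩ := h.ran g
    obtain ⟨b2, -, h2⟩ := h.zcu.union' b1
    obtain ⟨b3, -, h3⟩ := h.zcu.union' b2
    obtain ⟨b4, h40, h4⟩ := h.zcu.union2 p b3
    obtain ⟨b5, -, h5⟩ := h.zcu.power b4 h40
    obtain ⟨b6, -, h6⟩ := h.rep (fun q s => ¬ S.ur s ∧ ∀ q', S.mem q' s ↔ Step P E a q q') b5
      (fun q _ => sts a q)
    obtain ⟨V, h70, h7⟩ := h.zcu.union' b6
    have e : ∀ t, S.mem t b4 ↔
        S.mem t p ∨ ∃ c V' q0, Pr S g c V' ∧ S.mem q0 V' ∧ S.mem t q0 := by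
      intro t
      rw [h4, h3]
      refine or_congr_right ⟨?_, ?_⟩
      · rintro ⟨q0, a1, a2⟩
        obtain ⟨V', a3, a4⟩ := (h2 q0).1 a1
        obtain ⟨c, a5⟩ := (h1 V').1 a3
        exact ⟨c, V', q0, a5, a4, a2⟩
      · rintro ⟨c, V', q0, a5, a4, a2⟩
        exact ⟨q0, (h2 q0).2 ⟨V', (h1 V').2 ⟨c, a5⟩, a4⟩, a2⟩
    refine ⟨V, h70, fun q' => (h7 q').trans ⟨?_, ?_⟩⟩
    · rintro ⟨s, a1, a2⟩
      obtain ⟨q, a3, -, a4⟩ := (h6 s).1 a1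
      obtain ⟨a5, a6⟩ := (h5 q).1 a3
      exact ⟨q, a5, fun t ht => (e t).1 (a6 t ht), (a4 q').1 a2⟩
    · rintro ⟨q, a1, a2, a3⟩
      obtain ⟨s, hs, -⟩ := sts a q
      exact ⟨s, (h6 s).2 ⟨q, (h5 q).2 ⟨a1, fun t ht => (e t).2 (a2 t ht)⟩, hs⟩, (hs.2 q').2 a3⟩)
  have hU' : ∀ {n : ℕ} (a b : (Fin n → S.M) → S.M) [Tm a] [Tm b], Df (fun v => U (a v) = b v) :=
    fun a b _ _ => Df.app2 (P := fun x y => U x = y) hU a b
  have memU : ∀ a q q', ¬ S.ur q → (∀ t, S.mem t q → S.mem t p ∨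
      ∃ c q0, Lt S r w c a ∧ S.mem q0 (U c) ∧ S.mem t q0) → Step P E a q q' → S.mem q' (U a) := by
    intro a q q' h1 h2 h3
    obtain ⟨g, g1, -, g2⟩ := recU a
    refine (g2 q').2 ⟨q, h1, fun t ht => (h2 t ht).imp id ?_, h3⟩
    rintro ⟨c, q0, a1, a2, a3⟩
    exact ⟨c, U c, q0, (g1 _ _).2 ⟨a1, rfl⟩, a2, a3⟩
  obtain ⟨W1, -, hW1⟩ := h.rep (fun a V => U a = V) w (fun a _ => ⟨U a, rfl, fun _ e => e.symm⟩)
  obtain ⟨W, -, hW⟩ := h.zcu.union' W1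
  obtain ⟨s, hs⟩ := h.wo W
  obtain ⟨G, hG, recG⟩ := h.recur (fun c a => Lt S r w c a)
    (fun a g q' => (S.mem q' W ∧ ((∃ V, U a = V ∧ S.mem q' V) ∧ ∃ q, ¬ S.ur q ∧
        (∀ t, S.mem t q ↔ S.mem t p ∨ ∃ c q0, Pr S g c q0 ∧ S.mem t q0) ∧ Step P E a q q') ∧
      ∀ q'', S.mem q'' W → ((∃ V, U a = V ∧ S.mem q'' V) ∧ ∃ q, ¬ S.ur q ∧
        (∀ t, S.mem t q ↔ S.mem t p ∨ ∃ c q0, Pr S g c q0 ∧ S.mem t q0) ∧ Step P E a q q'') →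
        Pr S s q' q'') ∨
      (q' = p ∧ ¬ ∃ q'', S.mem q'' W ∧ ((∃ V, U a = V ∧ S.mem q'' V) ∧ ∃ q, ¬ S.ur q ∧
        (∀ t, S.mem t q ↔ S.mem t p ∨ ∃ c q0, Pr S g c q0 ∧ S.mem t q0) ∧ Step P E a q q'')))
    (h.wo_wf hr) (h.wo_cl r w) (by
    intro a g
    by_cases h1 : ∃ q'', S.mem q'' W ∧ ((∃ V, U a = V ∧ S.mem q'' V) ∧ ∃ q, ¬ S.ur q ∧
        (∀ t, S.mem t q ↔ S.mem t p ∨ ∃ c q0, Pr S g c q0 ∧ S.mem t q0) ∧ Step P E a q q'')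
    · obtain ⟨b, hb, hb'⟩ := h.wo_least hs _ h1
      refine ⟨b, Or.inl hb, ?_⟩
      rintro b' (h2 | h2)
      · exact hb' b' h2
      · exact absurd h1 h2.2
    · refine ⟨p, Or.inr ⟨rfl, h1⟩, ?_⟩
      rintro b' (h2 | h2)
      · exact absurd ⟨b', h2.1, h2.2.1⟩ h1
      · exact h2.1)
  have hG' : ∀ {n : ℕ} (a b : (Fin n → S.M) → S.M) [Tm a] [Tm b], Df (fun v => G (a v) = b v) :=
    fun a b _ _ => Df.app2 (P := fun x y => G x = y) hG a b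
  have chain : ∀ z, (∀ c, S.mem c z → P (G c) ∧ Sub S p (G c)) →
      (∀ c c', S.mem c z → S.mem c' z → Sub S (G c) (G c') ∨ Sub S (G c') (G c)) →
      ∃ q, ¬ S.ur q ∧ P q ∧ ∀ t, S.mem t q ↔ S.mem t p ∨ ∃ c, S.mem c z ∧ S.mem t (G c) := by
    intro z h1 h2
    obtain ⟨Y0, -, hY0⟩ := h.rep (fun a V => G a = V) z (fun a _ => ⟨G a, rfl, fun _ e => e.symm⟩)
    obtain ⟨Y, -, hY⟩ := h.zcu.insert Y0 p
    obtain ⟨q, hq⟩ := h.zcu.union' Y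
    refine ⟨q, hq.1, hch Y q (fun q1 a1 => ?_) (fun q1 q2 a1 a2 => ?_) hq,
      fun t => (hq.2 t).trans ⟨?_, ?_⟩⟩
    · rcases (hY q1).1 a1 with a2 | rfl
      · obtain ⟨c, a3, rfl⟩ := (hY0 q1).1 a2
        exact (h1 c a3).1
      · exact hp
    · rcases (hY q1).1 a1 with a3 | rfl <;> rcases (hY q2).1 a2 with a4 | rfl
      · obtain ⟨c, a5, rfl⟩ := (hY0 q1).1 a3
        obtain ⟨c', a6, rfl⟩ := (hY0 q2).1 a4
        exact h2 c c' a5 a6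
      · obtain ⟨c, a5, rfl⟩ := (hY0 q1).1 a3
        exact Or.inr (h1 c a5).2
      · obtain ⟨c, a5, rfl⟩ := (hY0 q2).1 a4
        exact Or.inl (h1 c a5).2
      · exact Or.inl (Sub.refl _)
    · rintro ⟨q1, a1, a2⟩
      rcases (hY q1).1 a1 with a3 | rfl
      · obtain ⟨c, a5, rfl⟩ := (hY0 q1).1 a3
        exact Or.inr ⟨c, a5, a2⟩
      · exact Or.inl a2
    · rintro (a1 | ⟨c, a1, a2⟩)
      · exact ⟨p, (hY p).2 (Or.inr rfl), a1⟩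
      · exact ⟨G c, (hY _).2 (Or.inl ((hY0 _).2 ⟨c, a1, rfl⟩)), a2⟩
  have main : ∀ a, S.mem a w → S.mem (G a) (U a) ∧ P (G a) ∧ E a (G a) ∧ Sub S p (G a) ∧
      ∀ c, Lt S r w c a → Sub S (G c) (G a) := by
    intro a ha
    have := h.wf_ind (fun c a => Lt S r w c a) (h.wo_wf hr) (h.wo_cl r w)
      (fun a => S.mem a w → ∀ x y, G a = x → U a = y → S.mem x y ∧ P x ∧ E a x ∧ Sub S p x ∧
        ∀ c, Lt S r w c a → ∀ x', G c = x' → Sub S x' x) ?_ a ha _ _ rfl rfl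
    · exact ⟨this.1, this.2.1, this.2.2.1, this.2.2.2.1, fun c hc => this.2.2.2.2 c hc _ rfl⟩
    rintro a ih ha _ _ rfl rfl
    obtain ⟨z, -, hz⟩ := h.sep (fun c => Lt S r w c a) w
    have ih' := fun c (hc : S.mem c z) => ih c ((hz c).1 hc).2 ((hz c).1 hc).1 _ _ rfl rfl
    obtain ⟨q, q1, q2, q3⟩ := chain z (fun c hc => ⟨(ih' c hc).2.1, (ih' c hc).2.2.2.1⟩) (by
      intro c c' hc hc'
      rcases h.wo_tri hr ((hz c).1 hc).1 ((hz c').1 hc').1 with h1 | rfl | h1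
      · exact Or.inl ((ih' c' hc').2.2.2.2 c h1 _ rfl)
      · exact Or.inl (Sub.refl _)
      · exact Or.inr ((ih' c hc).2.2.2.2 c' h1 _ rfl))
    obtain ⟨g, g1, g2⟩ := recG a
    have e : ∀ t, S.mem t q ↔ S.mem t p ∨ ∃ c q0, Pr S g c q0 ∧ S.mem t q0 := by
      intro t
      rw [q3]
      refine or_congr_right ⟨?_, ?_⟩
      · rintro ⟨c, a1, a2⟩
        exact ⟨c, G c, (g1 _ _).2 ⟨((hz c).1 a1).2, rfl⟩, a2⟩
      · rintro ⟨c, q0, a1, a2⟩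
        obtain ⟨a3, rfl⟩ := (g1 _ _).1 a1
        exact ⟨c, (hz c).2 ⟨a3.1, a3⟩, a2⟩
    rcases g2 with ⟨-, ⟨⟨_, rfl, a1⟩, q', -, a2, a3, -⟩, -⟩ | ⟨-, a1⟩
    · refine ⟨a1, a3.1, a3.2.2, fun t ht => a3.2.1 t ((a2 t).2 (Or.inl ht)), ?_⟩
      rintro c hc _ rfl t ht
      exact a3.2.1 t ((a2 t).2 (Or.inr ⟨c, G c, (g1 _ _).2 ⟨hc, rfl⟩, ht⟩))
    · obtain ⟨q', hq'⟩ := stx a ha q q2
      have a2 : S.mem q' (U a) := by
        refine memU a q q' q1 (fun t ht => ((q3 t).1 ht).imp id ?_) hq'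
        rintro ⟨c, b1, b2⟩
        exact ⟨c, G c, ((hz c).1 b1).2, (ih' c b1).1, b2⟩
      exact absurd ⟨q', (hW q').2 ⟨U a, (hW1 _).2 ⟨a, ha, rfl⟩, a2⟩, ⟨_, rfl, a2⟩, q, q1, e, hq'⟩ a1
  obtain ⟨q, -, q2, q3⟩ := chain w (fun c hc => ⟨(main c hc).2.1, (main c hc).2.2.2.1⟩) (by
    intro c c' hc hc'
    rcases h.wo_tri hr hc hc' with h1 | rfl | h1
    · exact Or.inl ((main c' hc').2.2.2.2 c h1)
    · exact Or.inl (Sub.refl _)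
    · exact Or.inr ((main c hc).2.2.2.2 c' h1))
  exact ⟨q, q2, fun t ht => (q3 t).2 (Or.inl ht), fun a ha =>
    ⟨G a, fun t ht => (q3 t).2 (Or.inr ⟨a, ha, ht⟩), (main a ha).2.1, (main a ha).2.2.1⟩⟩

end Pool.Agent.H254Z.GB
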