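import Mathlib
import Pool.Agent.H597Z.UrDefs

set_option autoImplicit false

universe u

namespace Pool.Agent.H254Z.GB

open Pool.Agent.H597Z.Ur

/-- Models of ZFCU_R: ZU, AC, and the Replacement scheme. -/
structure ZFCUR (S : Str.{u}) : Prop where
  zcu : ZCU S
  repl : ∀ (n : ℕ) (φ : Fml Empty (n + 2)) (v : Fin n → S.M) (w : S.M), ¬ S.ur w →
    (∀ x, S.mem x w → ∃! y, Sat S Empty.elim φ (Fin.cons y (Fin.cons x v))) →
    ∃ a, ¬ S.ur a ∧ ∀ y, S.mem y a ↔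
      ∃ x, S.mem x w ∧ Sat S Empty.elim φ (Fin.cons y (Fin.cons x v))

/-- Two-sorted models of GBU_R + Global Choice: `C` is the sort of classes and `cm x c` says that
the object `x` belongs to the class `c`. -/
structure GBURGC (S : Str.{u}) (C : Type u) (cm : S.M → C → Prop) : Prop where
  zcu : ZCU S
  cext : ∀ c d, (∀ x, cm x c ↔ cm x d) → c = d
  comp : ∀ (m n : ℕ) (φ : Fml (Fin m) (n + 1)) (W : Fin m → C) (v : Fin n → S.M),
    ∃ c, ∀ x, cm x c ↔ Sat S (fun k y => cm y (W k)) φ (Fin.cons x v)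
  sep : ∀ (c : C) (w : S.M), ¬ S.ur w → ∃ a, ¬ S.ur a ∧ ∀ z, S.mem z a ↔ S.mem z w ∧ cm z c
  repl : ∀ (c : C) (w : S.M), ¬ S.ur w → (∀ x, S.mem x w → ∃! y, Rel S (fun p => cm p c) x y) →
    ∃ a, ¬ S.ur a ∧ ∀ y, S.mem y a ↔ ∃ x, S.mem x w ∧ Rel S (fun p => cm p c) x y
  gc : ∃ c : C, (∀ x y z, Rel S (fun p => cm p c) x y → Rel S (fun p => cm p c) x z → y = z) ∧
    ∀ x, ¬ S.ur x → (∃ y, S.mem y x) → ∃ y, S.mem y x ∧ Rel S (fun p => cm p c) x y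

end Pool.Agent.H254Z.GB
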