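import Pool.Agent.H254Z.GB.Defs
import Pool.Agent.H597Z.UrBasic

set_option autoImplicit false

universe u

namespace Pool.Agent.H254Z.GB

open Pool.Agent.H597Z.Ur

/-- renaming of variables -/
def ren {κ : Type} : {n m : ℕ} → (Fin n → Fin m) → Fml κ n → Fml κ m
  | _, _, σ, .mem i j => .mem (σ i) (σ j)
  | _, _, σ, .eq i j => .eq (σ i) (σ j)
  | _, _, σ, .ur i => .ur (σ i)
  | _, _, σ, .cls i k => .cls (σ i) k
  | _, _, _, .bot => .bot
  | _, _, σ, .imp φ ψ => .imp (ren σ φ) (ren σ ψ)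
  | _, _, σ, .all φ => .all (ren (Fin.cons 0 (fun i => (σ i).succ)) φ)

theorem cons_comp {α : Type u} {n m : ℕ} (σ : Fin n → Fin m) (x : α) (v : Fin m → α) :
    (fun i => (Fin.cons x v : Fin (m + 1) → α)
      ((Fin.cons 0 (fun i => (σ i).succ) : Fin (n + 1) → Fin (m + 1)) i)) =
      Fin.cons x (fun i => v (σ i)) := by
  funext i
  refine Fin.cases ?_ (fun j => ?_) i <;> simp

theorem sat_ren {S : Str.{u}} {κ : Type} (W : κ → S.M → Prop) :
    ∀ {n : ℕ} (φ : Fml κ n) {m : ℕ} (σ : Fin n → Fin m) (v : Fin m → S.M),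
      Sat S W (ren σ φ) v ↔ Sat S W φ (fun i => v (σ i)) := by
  intro n φ
  induction φ with
  | mem i j => intro m σ v; rfl
  | eq i j => intro m σ v; rfl
  | ur i => intro m σ v; rfl
  | cls i k => intro m σ v; rfl
  | bot => intro m σ v; rfl
  | imp φ ψ ih1 ih2 => intro m σ v; simp only [ren, Sat, ih1, ih2]
  | all φ ih => intro m σ v; simp only [ren, Sat, ih, cons_comp]

theorem D_ren {S : Str.{u}} {κ : Type} {W : κ → S.M → Prop} {n m : ℕ}
    {p : (Fin n → S.M) → Prop} (hp : D W p) (σ : Fin n → Fin m) :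
    D W (fun v => p (fun i => v (σ i))) := by
  obtain ⟨φ, hφ⟩ := hp
  exact ⟨ren σ φ, fun v => (sat_ren W φ σ v).trans (hφ _)⟩

theorem D_bot {S : Str.{u}} {κ : Type} {W : κ → S.M → Prop} {n : ℕ} :
    D W (fun _ : Fin n → S.M => False) := ⟨.bot, fun _ => Iff.rfl⟩

variable {S : Str.{0}}

/-- parameters as class variables -/
def W0 (S : Str.{0}) : S.M → S.M → Prop := fun c x => x = c

/-- definable with parameters -/
class Df {n : ℕ} (p : (Fin n → S.M) → Prop) : Prop where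
  d : D (W0 S) p

/-- variables and constants -/
class Tm {n : ℕ} (t : (Fin n → S.M) → S.M) : Prop where
  d : (∃ i, ∀ v, t v = v i) ∨ ∃ c, ∀ v, t v = c

section inst

variable {n : ℕ}

instance (priority := low) Tm.const (c : S.M) : Tm (fun _ : Fin n → S.M => c) :=
  ⟨Or.inr ⟨c, fun _ => rfl⟩⟩

instance Tm.var (i : Fin n) : Tm (fun v : Fin n → S.M => v i) := ⟨Or.inl ⟨i, fun _ => rfl⟩⟩

instance (priority := low) Tm.succ (t : (Fin n → S.M) → S.M) [h : Tm t] :
    Tm (fun w : Fin (n + 1) → S.M => t (fun i => w i.succ)) := by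
  rcases h.d with ⟨i, hi⟩ | ⟨c, hc⟩
  · exact ⟨Or.inl ⟨i.succ, fun v => hi _⟩⟩
  · exact ⟨Or.inr ⟨c, fun v => hc _⟩⟩

theorem Df.congr {p q : (Fin n → S.M) → Prop} (hp : Df p) (h : ∀ v, p v ↔ q v) : Df q :=
  ⟨hp.d.congr h⟩

theorem Df.ren {m : ℕ} {p : (Fin n → S.M) → Prop} (hp : Df p) (σ : Fin n → Fin m) :
    Df (fun v => p (fun i => v (σ i))) := ⟨D_ren hp.d σ⟩

instance Df.imp (p q : (Fin n → S.M) → Prop) [hp : Df p] [hq : Df q] :
    Df (fun v => p v → q v) := ⟨hp.d.imp hq.d⟩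

instance Df.not (p : (Fin n → S.M) → Prop) [hp : Df p] : Df (fun v => ¬ p v) := ⟨hp.d.not⟩

instance Df.and (p q : (Fin n → S.M) → Prop) [hp : Df p] [hq : Df q] :
    Df (fun v => p v ∧ q v) := ⟨hp.d.and hq.d⟩

instance Df.or (p q : (Fin n → S.M) → Prop) [hp : Df p] [hq : Df q] :
    Df (fun v => p v ∨ q v) := ⟨hp.d.or hq.d⟩

instance Df.iff (p q : (Fin n → S.M) → Prop) [hp : Df p] [hq : Df q] :
    Df (fun v => p v ↔ q v) := ⟨hp.d.iff hq.d⟩

instance Df.all (p : (Fin n → S.M) → S.M → Prop)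
    [h : Df (fun w : Fin (n + 1) → S.M => p (fun i => w i.succ) (w 0))] :
    Df (fun v => ∀ x, p v x) := ⟨D.all h.d⟩

instance Df.ex (p : (Fin n → S.M) → S.M → Prop)
    [h : Df (fun w : Fin (n + 1) → S.M => p (fun i => w i.succ) (w 0))] :
    Df (fun v => ∃ x, p v x) := ⟨D.ex h.d⟩

instance Df.bot : Df (fun _ : Fin n → S.M => False) := ⟨D_bot⟩

theorem Df.eqT (t : (Fin n → S.M) → S.M) [h : Tm t] :
    Df (fun w : Fin (n + 1) → S.M => w 0 = t (fun i => w i.succ)) := by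
  rcases h.d with ⟨i, hi⟩ | ⟨c, hc⟩
  · exact ⟨(D.eq (T.var 0) (T.var i.succ)).congr fun v => by rw [hi]⟩
  · exact ⟨(D.cls (W := W0 S) c (T.var 0)).congr fun v => by rw [hc]; rfl⟩

/-- substitution of a term in a unary definable predicate -/
theorem Df.app1 {P : S.M → Prop} (hP : Df (fun v : Fin 1 → S.M => P (v 0)))
    (a : (Fin n → S.M) → S.M) [Tm a] : Df (fun v => P (a v)) := by
  have h1 := Df.eqT a
  have h2 : Df (fun w : Fin (n + 1) → S.M => P (w 0)) := hP.ren (fun _ => 0)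
  have h3 : Df (fun v : Fin n → S.M => ∃ x, x = a v ∧ P x) := Df.ex _
  exact h3.congr fun v => by simp

theorem Df.app2 {P : S.M → S.M → Prop} (hP : Df (fun v : Fin 2 → S.M => P (v 0) (v 1)))
    (a b : (Fin n → S.M) → S.M) [Tm a] [hb : Tm b] : Df (fun v => P (a v) (b v)) := by
  have h1 := Df.eqT a
  have h1' := Df.eqT (fun w : Fin (n + 1) → S.M => b (fun i => w i.succ))
  have h2 : Df (fun w : Fin (n + 2) → S.M => P (w (Fin.succ 0)) (w 0)) := hP.ren ![1, 0]
  have h4 : Df (fun w : Fin (n + 1) → S.M => ∃ y, y = b (fun i => w i.succ) ∧ P (w 0) y) := Df.ex _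
  have h3 : Df (fun v : Fin n → S.M => ∃ x, x = a v ∧ ∃ y, y = b v ∧ P x y) := Df.ex _
  exact h3.congr fun v => by simp

instance Df.mem (a b : (Fin n → S.M) → S.M) [Tm a] [Tm b] : Df (fun v => S.mem (a v) (b v)) :=
  Df.app2 (P := fun x y => S.mem x y) ⟨D.mem (T.var 0) (T.var 1)⟩ a b

instance Df.eq (a b : (Fin n → S.M) → S.M) [Tm a] [Tm b] : Df (fun v => a v = b v) :=
  Df.app2 (P := fun x y => x = y) ⟨D.eq (T.var 0) (T.var 1)⟩ a b

instance Df.ne (a b : (Fin n → S.M) → S.M) [Tm a] [Tm b] : Df (fun v => a v ≠ b v) :=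
  Df.not _

instance Df.ur (a : (Fin n → S.M) → S.M) [Tm a] : Df (fun v => S.ur (a v)) :=
  Df.app1 (P := fun x => S.ur x) ⟨D.ur (T.var 0)⟩ a

theorem Df.subst : ∀ {k : ℕ} (φ : Fml S.M k) {n : ℕ} (t : Fin k → (Fin n → S.M) → S.M),
    (∀ i, Tm (t i)) → Df (fun v => Sat S (W0 S) φ (fun i => t i v)) := by
  intro k φ
  induction φ with
  | mem i j => intro n t ht; exact Df.mem (t i) (t j)
  | eq i j => intro n t ht; exact Df.eq (t i) (t j)
  | ur i => intro n t ht; exact Df.ur (t i)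
  | cls i c => intro n t ht; exact Df.eq (t i) (fun _ => c)
  | bot => intro n t ht; exact Df.bot
  | imp φ ψ ih1 ih2 => intro n t ht; exact Df.imp _ _ (hp := ih1 t ht) (hq := ih2 t ht)
  | @all k φ ih =>
    intro n t ht
    refine Df.all (fun v x => Sat S (W0 S) φ (Fin.cons x (fun i => t i v))) (h := ?_)
    refine (ih (Fin.cons (fun w => w 0) (fun i w => t i (fun j => w j.succ))) ?_).congr fun v => ?_
    · intro i
      refine Fin.cases ?_ (fun j => ?_) i
      · exact Tm.var 0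
      · exact Tm.succ (t j)
    · refine iff_of_eq (congrArg _ ?_)
      funext i
      refine Fin.cases ?_ (fun j => ?_) i <;> rfl

theorem Df.appN {k : ℕ} {P : (Fin k → S.M) → Prop} (hP : Df P)
    (t : Fin k → (Fin n → S.M) → S.M) (ht : ∀ i, Tm (t i)) : Df (fun v => P (fun i => t i v)) := by
  obtain ⟨φ, hφ⟩ := hP.d
  exact (Df.subst φ t ht).congr fun v => hφ _

theorem Df.app3 {P : S.M → S.M → S.M → Prop}
    (hP : Df (fun v : Fin 3 → S.M => P (v 0) (v 1) (v 2)))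
    (a b c : (Fin n → S.M) → S.M) [ha : Tm a] [hb : Tm b] [hc : Tm c] :
    Df (fun v => P (a v) (b v) (c v)) :=
  hP.appN ![a, b, c] (fun i => by fin_cases i <;> assumption)

theorem Df.app4 {P : S.M → S.M → S.M → S.M → Prop}
    (hP : Df (fun v : Fin 4 → S.M => P (v 0) (v 1) (v 2) (v 3)))
    (a b c d : (Fin n → S.M) → S.M) [ha : Tm a] [hb : Tm b] [hc : Tm c] [hd : Tm d] :
    Df (fun v => P (a v) (b v) (c v) (d v)) :=
  hP.appN ![a, b, c, d] (fun i => by fin_cases i <;> assumption)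

instance Df.op (a b c : (Fin n → S.M) → S.M) [Tm a] [Tm b] [Tm c] :
    Df (fun v => OP S (a v) (b v) (c v)) :=
  Df.app3 (P := fun x y z => OP S x y z) (by unfold OP; infer_instance) a b c

end inst

/-- elimination of parameters: all parameters can be coded by one -/
theorem one_param (h : ZCU S) : ∀ {n : ℕ} (φ : Fml S.M n), ∃ c : S.M,
    ∃ q : (Fin (n + 1) → S.M) → Prop, D (κ := Empty) Empty.elim q ∧
      ∀ v, Sat S (W0 S) φ v ↔ q (Fin.cons c v) := by
  obtain ⟨c0, -⟩ := h.inf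
  intro n φ
  induction φ with
  | mem i j => exact ⟨c0, _, D.mem (T.var i.succ) (T.var j.succ), fun v => by simp [Sat]⟩
  | eq i j => exact ⟨c0, _, D.eq (T.var i.succ) (T.var j.succ), fun v => by simp [Sat]⟩
  | ur i => exact ⟨c0, _, D.ur (T.var i.succ), fun v => by simp [Sat]⟩
  | cls i k => exact ⟨k, _, D.eq (T.var i.succ) (T.var 0), fun v => by simp [Sat, W0]⟩
  | bot => exact ⟨c0, _, D_bot, fun v => Iff.rfl⟩
  | @imp n φ ψ ih1 ih2 =>
    obtain ⟨c1, q1, d1, e1⟩ := ih1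
    obtain ⟨c2, q2, d2, e2⟩ := ih2
    obtain ⟨c, hc⟩ := op_exists h.pair h.ext c1 c2
    refine ⟨c, fun w => ∃ a b, OP S (w 0) a b ∧
      (q1 (Fin.cons a (fun i => w i.succ)) → q2 (Fin.cons b (fun i => w i.succ))), ?_, ?_⟩
    · apply D.ex
      apply D.ex
      apply D.and
      · unfold OP
        repeat' first
          | exact T.var _
          | apply D.ex | apply D.and | apply D.or | apply D.iff | apply D.not | apply D.all
          | apply D.imp | apply D.mem | apply D.ur | apply D.eq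
      · apply D.imp
        · refine (D_ren d1 (Fin.cons 1 (fun i => i.succ.succ.succ))).congr fun v => ?_
          refine iff_of_eq (congrArg q1 ?_)
          funext i
          refine Fin.cases ?_ (fun j => ?_) i <;> simp
        · refine (D_ren d2 (Fin.cons 0 (fun i => i.succ.succ.succ))).congr fun v => ?_
          refine iff_of_eq (congrArg q2 ?_)
          funext i
          refine Fin.cases ?_ (fun j => ?_) i <;> simp
    · intro v
      simp only [Sat, e1, e2, Fin.cons_zero, Fin.cons_succ]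
      constructor
      · intro hh
        exact ⟨c1, c2, hc, hh⟩
      · rintro ⟨a, b, h1, h2⟩
        obtain ⟨rfl, rfl⟩ := op_inj h.pair hc h1
        exact h2
  | @all n φ ih =>
    obtain ⟨c, q, d, e⟩ := ih
    refine ⟨c, fun w => ∀ x, q (Fin.cons (w 0) (Fin.cons x (fun i => w i.succ))), ?_, ?_⟩
    · apply D.all
      refine (D_ren d (Fin.cons 1 (Fin.cons 0 (fun i => i.succ.succ)))).congr fun v => ?_
      refine iff_of_eq (congrArg q ?_)
      funext i
      refine Fin.cases ?_ (fun j => Fin.cases ?_ (fun k => ?_) j) i <;> simp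
    · intro v
      simp only [Sat, e, Fin.cons_zero, Fin.cons_succ]

theorem ZFCUR.empty (h : ZFCUR S) : ∃ e, ¬ S.ur e ∧ ∀ z, ¬ S.mem z e := by
  obtain ⟨_, ⟨e, _, h1, h2⟩, _⟩ := h.zcu.inf
  exact ⟨e, h1, h2⟩

theorem ZFCUR.sep (h : ZFCUR S) (P : S.M → Prop) [hP : Df (fun v : Fin 1 → S.M => P (v 0))]
    (w : S.M) : ∃ a, ¬ S.ur a ∧ ∀ z, S.mem z a ↔ S.mem z w ∧ P z := by
  by_cases hw : S.ur w
  · obtain ⟨e, h1, h2⟩ := h.empty
    exact ⟨e, h1, fun z => ⟨fun h3 => absurd h3 (h2 z), fun h3 =>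
      absurd h3.1 (h.zcu.urEmpty w z hw)⟩⟩
  obtain ⟨φ, hφ⟩ := hP.d
  obtain ⟨c, q, d, e⟩ := one_param h.zcu φ
  obtain ⟨ψ, hψ⟩ := D_ren d (![1, 0] : Fin 2 → Fin 2)
  obtain ⟨a, ha, h1⟩ := h.zcu.sep 1 ψ ![c] w hw
  refine ⟨a, ha, fun z => (h1 z).trans (and_congr_right fun _ => ?_)⟩
  rw [hψ, ← show Sat S (W0 S) φ ![z] ↔ P z from hφ ![z], e]
  refine iff_of_eq (congrArg q ?_)
  funext i
  fin_cases i <;> rfl

theorem ZFCUR.rep (h : ZFCUR S) (R : S.M → S.M → Prop)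
    [hP : Df (fun v : Fin 2 → S.M => R (v 0) (v 1))] (w : S.M)
    (hR : ∀ x, S.mem x w → ∃! y, R x y) :
    ∃ a, ¬ S.ur a ∧ ∀ y, S.mem y a ↔ ∃ x, S.mem x w ∧ R x y := by
  by_cases hw : S.ur w
  · obtain ⟨e, h1, h2⟩ := h.empty
    exact ⟨e, h1, fun z => ⟨fun h3 => absurd h3 (h2 z), fun ⟨x, h3, _⟩ =>
      absurd h3 (h.zcu.urEmpty w x hw)⟩⟩
  obtain ⟨φ, hφ⟩ := hP.d
  obtain ⟨c, q, d, e⟩ := one_param h.zcu φ
  obtain ⟨ψ, hψ⟩ := D_ren d (![2, 1, 0] : Fin 3 → Fin 3)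
  have key : ∀ x y, Sat S Empty.elim ψ (Fin.cons y (Fin.cons x ![c])) ↔ R x y := by
    intro x y
    rw [hψ, ← show Sat S (W0 S) φ ![x, y] ↔ R x y from hφ ![x, y], e]
    refine iff_of_eq (congrArg q ?_)
    funext i
    fin_cases i <;> rfl
  obtain ⟨a, ha, h1⟩ := h.repl 1 ψ ![c] w hw (by simpa only [key] using hR)
  exact ⟨a, ha, by simpa only [key] using h1⟩

end Pool.Agent.H254Z.GB
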