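import Pool.Agent.H254Z.GB.DC

set_option autoImplicit false
set_option synthInstance.maxSize 2000

namespace Pool.Agent.H254Z.GB

open Pool.Agent.H597Z.Ur

variable {S : Str.{0}} {n : ℕ}

/-- conditions: sets of pairs which are choice functions on their domain -/
def Cond (S : Str.{0}) (p : S.M) : Prop :=
  Rs S p ∧ (∀ x y, Pr S p x y → S.mem y x) ∧ ∀ x y y', Pr S p x y → Pr S p x y' → y = y'

instance Df.cond (a : (Fin n → S.M) → S.M) [Tm a] : Df (fun v => Cond S (a v)) :=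
  Df.app1 (P := fun x => Cond S x) (by unfold Cond; infer_instance) a

/-- the forcing relation -/
def Fo (S : Str.{0}) : {n : ℕ} → Fml (Option S.M) n → S.M → (Fin n → S.M) → Prop
  | _, .mem i j, _, v => S.mem (v i) (v j)
  | _, .eq i j, _, v => v i = v j
  | _, .ur i, _, v => S.ur (v i)
  | _, .cls i none, p, v => ∀ q, Cond S q → Sub S p q → ∃ r, Cond S r ∧ Sub S q r ∧ S.mem (v i) r
  | _, .cls i (some c), _, v => v i = c
  | _, .bot, _, _ => False
  | _, .imp φ ψ, p, v => ∀ q, Cond S q → Sub S p q → Fo S φ q v → Fo S ψ q v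
  | _, .all φ, p, v => ∀ x, Fo S φ p (Fin.cons x v)

theorem Fo.mono : ∀ {n : ℕ} (φ : Fml (Option S.M) n) {p q : S.M} {v : Fin n → S.M},
    Fo S φ p v → Sub S p q → Fo S φ q v := by
  intro n φ
  induction φ with
  | mem i j => intro p q v h _; exact h
  | eq i j => intro p q v h _; exact h
  | ur i => intro p q v h _; exact h
  | cls i k =>
    intro p q v h h1
    cases k with
    | none => exact fun r h2 h3 => h r h2 (h1.trans h3)
    | some c => exact h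
  | bot => intro p q v h _; exact h
  | imp φ ψ _ _ => intro p q v h h1; exact fun r h2 h3 => h r h2 (h1.trans h3)
  | all φ ih => intro p q v h h1; exact fun x => ih (h x) h1

theorem Fo.reg : ∀ {n : ℕ} (φ : Fml (Option S.M) n) {p : S.M} {v : Fin n → S.M}, Cond S p →
    (∀ q, Cond S q → Sub S p q → ∃ r, Cond S r ∧ Sub S q r ∧ Fo S φ r v) → Fo S φ p v := by
  intro n φ
  induction φ with
  | mem i j => intro p v hp h; obtain ⟨r, -, -, h1⟩ := h p hp (Sub.refl p); exact h1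
  | eq i j => intro p v hp h; obtain ⟨r, -, -, h1⟩ := h p hp (Sub.refl p); exact h1
  | ur i => intro p v hp h; obtain ⟨r, -, -, h1⟩ := h p hp (Sub.refl p); exact h1
  | cls i k =>
    intro p v hp h
    cases k with
    | none =>
      intro q h1 h2
      obtain ⟨r, h3, h4, h5⟩ := h q h1 h2
      obtain ⟨r', h6, h7, h8⟩ := h5 r h3 (Sub.refl r)
      exact ⟨r', h6, h4.trans h7, h8⟩
    | some c => obtain ⟨r, -, -, h1⟩ := h p hp (Sub.refl p); exact h1
  | bot => intro p v hp h; obtain ⟨r, -, -, h1⟩ := h p hp (Sub.refl p); exact h1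
  | imp φ ψ _ ih =>
    intro p v _ h q h1 h2 h3
    refine ih h1 fun q' h4 h5 => ?_
    obtain ⟨r, h6, h7, h8⟩ := h q' h4 (h2.trans h5)
    exact ⟨r, h6, h7, h8 r h6 (Sub.refl r) (Fo.mono φ h3 (h5.trans h7))⟩
  | all φ ih =>
    intro p v hp h x
    refine ih hp fun q h1 h2 => ?_
    obtain ⟨r, h6, h7, h8⟩ := h q h1 h2
    exact ⟨r, h6, h7, h8 x⟩

theorem Df.fo : ∀ {k : ℕ} (φ : Fml (Option S.M) k) {n : ℕ} (a : (Fin n → S.M) → S.M) [Tm a]
    (t : Fin k → (Fin n → S.M) → S.M), (∀ i, Tm (t i)) →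
    Df (fun v => Fo S φ (a v) (fun i => t i v)) := by
  intro k φ
  induction φ with
  | mem i j => intro n a _ t ht; exact Df.mem (t i) (t j)
  | eq i j => intro n a _ t ht; exact Df.eq (t i) (t j)
  | ur i => intro n a _ t ht; exact Df.ur (t i)
  | cls i c =>
    intro n a _ t ht
    cases c with
    | none =>
      exact Df.app2 (P := fun p x => ∀ q, Cond S q → Sub S p q →
        ∃ r, Cond S r ∧ Sub S q r ∧ S.mem x r) (by infer_instance) a (t i)
    | some c => exact Df.eq (t i) (fun _ => c)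
  | bot => intro n a _ t ht; exact Df.bot
  | imp φ ψ ih1 ih2 =>
    intro n a _ t ht
    have h1 := ih1 (fun w : Fin (n + 1) → S.M => w 0) (fun i w => t i (fun j => w j.succ))
      (fun i => Tm.succ (t i))
    have h2 := ih2 (fun w : Fin (n + 1) → S.M => w 0) (fun i w => t i (fun j => w j.succ))
      (fun i => Tm.succ (t i))
    exact Df.all (fun v q => Cond S q → Sub S (a v) q → Fo S φ q (fun i => t i v) →
      Fo S ψ q (fun i => t i v))
  | @all k φ ih =>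
    intro n a _ t ht
    refine Df.all (fun v x => Fo S φ (a v) (Fin.cons x (fun i => t i v))) (h := ?_)
    refine (ih (fun w : Fin (n + 1) → S.M => a (fun j => w j.succ))
      (Fin.cons (fun w => w 0) (fun i w => t i (fun j => w j.succ))) ?_).congr fun v => ?_
    · intro i
      refine Fin.cases ?_ (fun j => ?_) i
      · exact Tm.var 0
      · exact Tm.succ (t j)
    · refine iff_of_eq (congrArg _ ?_)
      funext i
      refine Fin.cases ?_ (fun j => ?_) i <;> rfl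

/-- all parameters of a formula have the property `Q` -/
def Cs (Q : S.M → Prop) : {n : ℕ} → Fml (Option S.M) n → Prop
  | _, .cls _ (some c) => Q c
  | _, .imp φ ψ => Cs Q φ ∧ Cs Q ψ
  | _, .all φ => Cs Q φ
  | _, _ => True

theorem Cs.mono {Q Q' : S.M → Prop} (hQ : ∀ c, Q c → Q' c) :
    ∀ {n : ℕ} (φ : Fml (Option S.M) n), Cs Q φ → Cs Q' φ := by
  intro n φ
  induction φ with
  | mem i j => exact id
  | eq i j => exact id
  | ur i => exact id
  | cls i k =>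
    cases k with
    | none => exact id
    | some c => exact hQ c
  | bot => exact id
  | imp φ ψ ih1 ih2 => exact fun h => ⟨ih1 h.1, ih2 h.2⟩
  | all φ ih => exact ih

theorem ZFCUR.exists_cs (h : ZFCUR S) :
    ∀ {n : ℕ} (φ : Fml (Option S.M) n), ∃ A, Cs (In S A) φ := by
  obtain ⟨e, -⟩ := h.empty
  intro n φ
  induction φ with
  | mem i j => exact ⟨e, trivial⟩
  | eq i j => exact ⟨e, trivial⟩
  | ur i => exact ⟨e, trivial⟩
  | cls i k =>
    cases k with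
    | none => exact ⟨e, trivial⟩
    | some c => obtain ⟨A, -, hA⟩ := h.exists_in c; exact ⟨A, hA⟩
  | bot => exact ⟨e, trivial⟩
  | imp φ ψ ih1 ih2 =>
    obtain ⟨A, hA⟩ := ih1
    obtain ⟨B, hB⟩ := ih2
    obtain ⟨C, -, hC⟩ := h.zcu.union2 A B
    exact ⟨C, Cs.mono (fun c hc => hc.mono fun a ha => (hC a).2 (Or.inl ha)) φ hA,
      Cs.mono (fun c hc => hc.mono fun a ha => (hC a).2 (Or.inr ha)) ψ hB⟩
  | all φ ih => exact ih

namespace Aut

variable {θ : S.M → S.M}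

theorem inj (h : Aut S θ) {x y : S.M} : θ x = θ y ↔ x = y :=
  ⟨fun h1 => by rw [← h.inv x, h1, h.inv], fun h1 => by rw [h1]⟩

theorem mem' (h : Aut S θ) (x y : S.M) : S.mem x (θ y) ↔ S.mem (θ x) y := by
  rw [← h.mem (θ x) y, h.inv]

theorem eq' (h : Aut S θ) (x y : S.M) : x = θ y ↔ θ x = y :=
  ⟨fun h1 => by rw [h1, h.inv], fun h1 => by rw [← h1, h.inv]⟩

theorem all (h : Aut S θ) (P : S.M → Prop) : (∀ x, P x) ↔ ∀ x, P (θ x) :=
  ⟨fun h1 x => h1 _, fun h1 x => by simpa only [h.inv] using h1 (θ x)⟩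

theorem op (h : Aut S θ) {p x y : S.M} : OP S (θ p) (θ x) (θ y) ↔ OP S p x y := by
  unfold OP
  rw [h.ur, h.all]
  refine and_congr_right fun _ => forall_congr' fun z => ?_
  rw [h.mem, h.ur, h.all, h.all (fun t => S.mem t (θ z) ↔ t = θ x ∨ t = θ y)]
  simp only [h.mem, h.inj]

theorem pr (h : Aut S θ) {r x y : S.M} : Pr S (θ r) (θ x) (θ y) ↔ Pr S r x y := by
  constructor
  · rintro ⟨p, h1, h2⟩
    refine ⟨θ p, (h.mem' _ _).1 h1, h.op.1 ?_⟩
    rw [h.inv]; exact h2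
  · rintro ⟨p, h1, h2⟩
    exact ⟨θ p, (h.mem _ _).2 h1, h.op.2 h2⟩

theorem pr' (h : Aut S θ) {r x y : S.M} : Pr S (θ r) x y ↔ Pr S r (θ x) (θ y) := by
  rw [← h.pr (r := r), h.inv, h.inv]

theorem sub (h : Aut S θ) {p q : S.M} : Sub S (θ p) (θ q) ↔ Sub S p q := by
  unfold Sub
  rw [h.all]
  simp only [h.mem]

theorem cond' (h : Aut S θ) {p : S.M} (hp : Cond S p) : Cond S (θ p) := by
  refine ⟨⟨fun h1 => hp.1.1 ((h.ur p).1 h1), fun t ht => ?_⟩, fun x y h1 => ?_,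
    fun x y y' h1 h2 => ?_⟩
  · obtain ⟨x, y, h1⟩ := hp.1.2 _ ((h.mem' _ _).1 ht)
    refine ⟨θ x, θ y, ?_⟩
    rw [← h.inv t]; exact h.op.2 h1
  · exact (h.mem _ _).1 (hp.2.1 _ _ (h.pr'.1 h1))
  · exact h.inj.1 (hp.2.2 _ _ _ (h.pr'.1 h1) (h.pr'.1 h2))

theorem cond (h : Aut S θ) {p : S.M} : Cond S (θ p) ↔ Cond S p :=
  ⟨fun h1 => by simpa only [h.inv] using h.cond' h1, h.cond'⟩

theorem fo (h : Aut S θ) : ∀ {n : ℕ} (φ : Fml (Option S.M) n), Cs (fun c => θ c = c) φ →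
    ∀ (p : S.M) (v : Fin n → S.M), Fo S φ (θ p) (fun i => θ (v i)) ↔ Fo S φ p v := by
  intro n φ
  induction φ with
  | mem i j => intro _ p v; exact h.mem _ _
  | eq i j => intro _ p v; exact h.inj
  | ur i => intro _ p v; exact h.ur _
  | cls i k =>
    intro hc p v
    cases k with
    | none =>
      simp only [Fo]
      rw [h.all]
      refine forall_congr' fun q => ?_
      rw [h.cond, h.sub]
      refine imp_congr_right fun _ => imp_congr_right fun _ => ⟨?_, ?_⟩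
      · rintro ⟨r, h1, h2, h3⟩
        refine ⟨θ r, h.cond' h1, h.sub.1 ?_, (h.mem' _ _).2 h3⟩
        rw [h.inv]; exact h2
      · rintro ⟨r, h1, h2, h3⟩
        exact ⟨θ r, h.cond' h1, h.sub.2 h2, (h.mem _ _).2 h3⟩
    | some c =>
      have hc' : θ c = c := hc
      change θ (v i) = c ↔ v i = c
      rw [← h.inj (x := v i), hc']
  | bot => intro _ p v; exact Iff.rfl
  | imp φ ψ ih1 ih2 =>
    intro hc p v
    simp only [Fo]
    rw [h.all]
    refine forall_congr' fun q => ?_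
    rw [h.cond, h.sub, ih1 hc.1, ih2 hc.2]
  | all φ ih =>
    intro hc p v
    simp only [Fo]
    rw [h.all]
    refine forall_congr' fun x => ?_
    rw [← ih hc p (Fin.cons x v)]
    refine iff_of_eq (congrArg _ ?_)
    funext i
    refine Fin.cases ?_ (fun j => ?_) i <;> rfl

end Aut

theorem ZFCUR.compat (h : ZFCUR S) {θ : S.M → S.M} (hθ : Aut S θ) {A B s r : S.M}
    (h1 : ∀ x, In S A x → θ x = x) (h2 : ∀ x, In S B x → In S B (θ x) → In S A x)
    (hs : Cond S s) (hr : Cond S r) (hsB : In S B s) (hrB : In S B r)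
    (hrs : ∀ t, S.mem t r → In S A t → S.mem t s) :
    ∃ u, Cond S u ∧ Sub S s u ∧ Sub S (θ r) u := by
  obtain ⟨u, hu, hu'⟩ := h.zcu.union2 s (θ r)
  have hr' := hθ.cond' hr
  have e : ∀ x y, Pr S u x y → Pr S s x y ∨ Pr S (θ r) x y := by
    rintro x y ⟨t, h3, h4⟩
    exact ((hu' t).1 h3).imp (fun h5 => ⟨t, h5, h4⟩) (fun h5 => ⟨t, h5, h4⟩)
  have key : ∀ x y y', Pr S s x y → Pr S (θ r) x y' → y = y' := by
    intro x y y' h3 h4
    have h5 := hθ.pr'.1 h4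
    have a1 : In S B x := by
      obtain ⟨t, b1, b2⟩ := h3
      exact ((h.in_op b2).1 (hsB.mem b1)).1
    have a2 : In S B (θ x) := by
      obtain ⟨t, b1, b2⟩ := h5
      exact ((h.in_op b2).1 (hrB.mem b1)).1
    have a3 := h2 x a1 a2
    have a4 := a3.mem (hr'.2.1 x y' h4)
    rw [h1 x a3, h1 y' a4] at h5
    obtain ⟨t, b1, b2⟩ := h5
    exact hs.2.2 x y y' h3 ⟨t, hrs t b1 ((h.in_op b2).2 ⟨a3, a4⟩), b2⟩
  refine ⟨u, ⟨⟨hu, fun t ht => ?_⟩, fun x y h3 => ?_, fun x y y' h3 h4 => ?_⟩,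
    fun t ht => (hu' t).2 (Or.inl ht), fun t ht => (hu' t).2 (Or.inr ht)⟩
  · rcases (hu' t).1 ht with h3 | h3
    · exact hs.1.2 t h3
    · exact hr'.1.2 t h3
  · rcases e x y h3 with h4 | h4
    · exact hs.2.1 x y h4
    · exact hr'.2.1 x y h4
  · rcases e x y h3 with h5 | h5 <;> rcases e x y' h4 with h6 | h6
    · exact hs.2.2 x y y' h5 h6
    · exact key x y y' h5 h6
    · exact (key x y' y h6 h5).symm
    · exact hr'.2.2 x y y' h5 h6

theorem ZFCUR.exists_in2 (h : ZFCUR S) (x y : S.M) : ∃ B, In S B x ∧ In S B y := by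
  obtain ⟨p, -, hp⟩ := h.zcu.pair x y
  obtain ⟨B, -, hB⟩ := h.exists_in p
  exact ⟨B, hB.mem ((hp x).2 (Or.inl rfl)), hB.mem ((hp y).2 (Or.inr rfl))⟩

theorem ZFCUR.restrict (h : ZFCUR S) {A r : S.M} (hA : Dup S A) (hr : Cond S r) :
    ∃ r', Cond S r' ∧ In S A r' ∧ (∀ t, S.mem t r → In S A t → S.mem t r') ∧
      ∀ {n : ℕ} (φ : Fml (Option S.M) n) (v : Fin n → S.M), Cs (In S A) φ → (∀ i, In S A (v i)) →
        Fo S φ r v → Fo S φ r' v := by
  obtain ⟨r', h1, h2⟩ := h.sep (fun t => In S A t) r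
  have h3 : Sub S r' r := fun t ht => ((h2 t).1 ht).1
  have hr' : Cond S r' := ⟨⟨h1, fun t ht => hr.1.2 t (h3 t ht)⟩,
    fun x y h4 => hr.2.1 x y (h4.mono h3), fun x y y' h4 h5 => hr.2.2 x y y' (h4.mono h3) (h5.mono h3)⟩
  refine ⟨r', hr', h.in_of (fun h4 => absurd h4 h1) fun t ht => ((h2 t).1 ht).2,
    fun t h4 h5 => (h2 t).2 ⟨h4, h5⟩, fun φ v hφ hv hf => Fo.reg φ hr' fun s hs h4 => ?_⟩
  obtain ⟨B, b1, b2⟩ := h.exists_in2 s r
  obtain ⟨θ, hθ, t1, t2⟩ := h.exists_aut hA B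
  obtain ⟨u, u1, u2, u3⟩ := h.compat hθ t1 t2 hs hr b1 b2 fun t h5 h6 => h4 t ((h2 t).2 ⟨h5, h6⟩)
  refine ⟨u, u1, u2, Fo.mono φ ?_ u3⟩
  have := (hθ.fo φ (Cs.mono t1 φ hφ) r v).2 hf
  simpa only [t1 _ (hv _)] using this

theorem ZFCUR.decide (h : ZFCUR S) (φ : Fml (Option S.M) 2) (w : S.M) {p : S.M} (hp : Cond S p) :
    ∃ q, Cond S q ∧ Sub S p q ∧ ∀ x, S.mem x w → (∃ y, Fo S φ q ![x, y]) ∨
      ∀ r, Cond S r → Sub S q r → ∀ y, Fo S φ r ![x, y] →
        ∃ y', y' ≠ y ∧ ∃ r', Cond S r' ∧ Sub S r r' ∧ Fo S φ r' ![x, y'] := by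
  have hF : ∀ {n : ℕ} (a b c : (Fin n → S.M) → S.M) [Tm a] [Tm b] [Tm c],
      Df (fun v => Fo S φ (a v) ![b v, c v]) := by
    intro n a b c _ hb hc
    refine (Df.fo φ a ![b, c] (fun i => by fin_cases i <;> assumption)).congr fun v => ?_
    refine iff_of_eq (congrArg _ ?_)
    funext i
    fin_cases i <;> rfl
  obtain ⟨A1, a1⟩ := h.exists_cs φ
  obtain ⟨A2, a2, a3⟩ := h.exists_in2 p w
  obtain ⟨A0, -, a4⟩ := h.zcu.union2 A1 A2
  obtain ⟨A, a5, hA⟩ := h.exists_dup A0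
  have b1 : Cs (In S A) φ :=
    Cs.mono (fun c hc => hc.mono fun a ha => a5 a ((a4 a).2 (Or.inl ha))) φ a1
  have b2 : In S A p := a2.mono fun a ha => a5 a ((a4 a).2 (Or.inr ha))
  have b3 : In S A w := a3.mono fun a ha => a5 a ((a4 a).2 (Or.inr ha))
  obtain ⟨q, ⟨q1, q2⟩, q3, q4⟩ := h.dc A w p (fun q => Cond S q ∧ In S A q)
    (fun x q => (∃ y, Fo S φ q ![x, y]) ∨
      ∀ r, Cond S r → In S A r → Sub S q r → ∀ y, ¬ Fo S φ r ![x, y])
    (fun _ hq => hq.2) ⟨hp, b2⟩ (by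
      intro x _ q hq
      by_cases h1 : ∀ r, Cond S r → In S A r → Sub S q r → ∀ y, ¬ Fo S φ r ![x, y]
      · exact ⟨q, hq, Sub.refl q, Or.inr h1⟩
      · push Not at h1
        obtain ⟨r, h2, h3, h4, h5⟩ := h1
        exact ⟨r, ⟨h2, h3⟩, h4, Or.inl h5⟩) (by
      intro Y u h1 h2 h3
      have e : ∀ x y, Pr S u x y → ∃ q, S.mem q Y ∧ Pr S q x y := by
        rintro x y ⟨t, h4, h5⟩
        obtain ⟨q, h6, h7⟩ := (h3.2 t).1 h4
        exact ⟨q, h6, t, h7, h5⟩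
      refine ⟨⟨⟨h3.1, fun t ht => ?_⟩, fun x y h4 => ?_, fun x y y' h4 h5 => ?_⟩,
        h.in_of (fun h4 => absurd h4 h3.1) fun t ht => ?_⟩
      · obtain ⟨q, h6, h7⟩ := (h3.2 t).1 ht
        exact (h1 q h6).1.1.2 t h7
      · obtain ⟨q, h6, h7⟩ := e x y h4
        exact (h1 q h6).1.2.1 x y h7
      · obtain ⟨q, h6, h7⟩ := e x y h4
        obtain ⟨q', h8, h9⟩ := e x y' h5
        rcases h2 q q' h6 h8 with h10 | h10
        · exact (h1 q' h8).1.2.2 x y y' (h7.mono h10) h9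
        · exact (h1 q h6).1.2.2 x y y' h7 (h9.mono h10)
      · obtain ⟨q, h6, h7⟩ := (h3.2 t).1 ht
        exact (h1 q h6).2.mem h7)
  refine ⟨q, q1, q3, fun x hx => ?_⟩
  have bx := b3.mem hx
  obtain ⟨q', c1, ⟨-, c2⟩, ⟨y, c3⟩ | c3⟩ := q4 x hx
  · exact Or.inl ⟨y, Fo.mono φ c3 c1⟩
  refine Or.inr fun r hr hqr y hf => ?_
  by_cases hy : In S A y
  · obtain ⟨r', d1, d2, d3, d4⟩ := h.restrict hA hr
    exact absurd (d4 φ _ b1 (fun i => by fin_cases i <;> assumption) hf)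
      (c3 r' d1 d2 (fun t ht => d3 t (hqr t (c1 t ht)) (c2.mem ht)) y)
  · obtain ⟨B, e1, e2⟩ := h.exists_in2 r y
    obtain ⟨θ, hθ, t1, t2⟩ := h.exists_aut hA B
    obtain ⟨u, u1, u2, u3⟩ := h.compat hθ t1 t2 hr hr e1 e1 fun t h5 _ => h5
    refine ⟨θ y, fun e => hy (t2 y e2 (by rw [e]; exact e2)), u, u1, u2, Fo.mono φ ?_ u3⟩
    have := (hθ.fo φ (Cs.mono t1 φ b1) r _).2 hf
    refine (iff_of_eq (congrArg _ ?_)).1 this
    funext i
    fin_cases i
    · exact t1 x bx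
    · rfl

end Pool.Agent.H254Z.GB
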