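import Pool.Agent.H254Z.GB.Force

set_option autoImplicit false
set_option synthInstance.maxSize 2000

namespace Pool.Agent.H254Z.GB

open Pool.Agent.H597Z.Ur

/-- coding of formulas -/
def enc {κ : Type} (e : κ → ℕ) : {n : ℕ} → Fml κ n → ℕ
  | _, .mem i j => Nat.pair 0 (Nat.pair i j)
  | _, .eq i j => Nat.pair 1 (Nat.pair i j)
  | _, .ur i => Nat.pair 2 i
  | _, .cls i k => Nat.pair 3 (Nat.pair i (e k))
  | _, .bot => Nat.pair 4 0
  | _, .imp φ ψ => Nat.pair 5 (Nat.pair (enc e φ) (enc e ψ))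
  | _, .all φ => Nat.pair 6 (enc e φ)

theorem enc_inj {κ : Type} {e : κ → ℕ} (he : Function.Injective e) :
    ∀ {n : ℕ} (φ ψ : Fml κ n), enc e φ = enc e ψ → φ = ψ := by
  intro n φ
  induction φ with
  | mem i j => intro ψ h; cases ψ <;> simp_all [enc, Nat.pair_eq_pair, Fin.ext_iff]
  | eq i j => intro ψ h; cases ψ <;> simp_all [enc, Nat.pair_eq_pair, Fin.ext_iff]
  | ur i => intro ψ h; cases ψ <;> simp_all [enc, Nat.pair_eq_pair, Fin.ext_iff]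
  | cls i k => intro ψ h; cases ψ <;> simp_all [enc, Nat.pair_eq_pair, Fin.ext_iff, he.eq_iff]
  | bot => intro ψ h; cases ψ <;> simp_all [enc, Nat.pair_eq_pair]
  | imp φ χ ih1 ih2 =>
    intro ψ h
    cases ψ with
    | imp φ' χ' =>
      simp only [enc, Nat.pair_eq_pair, true_and] at h
      rw [ih1 _ h.1, ih2 _ h.2]
    | _ => simp [enc, Nat.pair_eq_pair] at h
  | all φ ih =>
    intro ψ h
    cases ψ with
    | all φ' =>
      simp only [enc, Nat.pair_eq_pair, true_and] at h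
      rw [ih _ h]
    | _ => simp [enc, Nat.pair_eq_pair] at h

instance fmlCountable {κ : Type} [Countable κ] (n : ℕ) : Countable (Fml κ n) := by
  obtain ⟨e, he⟩ := exists_injective_nat κ
  exact ⟨⟨enc e, fun φ ψ => enc_inj he φ ψ⟩⟩

variable {S : Str.{0}}

/-- generic chains of conditions -/
structure Gen (S : Str.{0}) (p : ℕ → S.M) : Prop where
  cond : ∀ n, Cond S (p n)
  mono : ∀ m n, m ≤ n → Sub S (p m) (p n)
  gen : ∀ (K : S.M → Prop) [Df (fun v : Fin 1 → S.M => K (v 0))],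
    ∃ m, K (p m) ∨ ∀ r, Cond S r → Sub S (p m) r → ¬ K r

theorem ZFCUR.exists_gen (h : ZFCUR S) [Countable S.M] : ∃ p, Gen S p := by
  obtain ⟨e, he, he'⟩ := h.empty
  have h0 : Cond S e := ⟨⟨he, fun t ht => absurd ht (he' t)⟩,
    fun x y ⟨t, ht, _⟩ => absurd ht (he' t), fun x y y' ⟨t, ht, _⟩ => absurd ht (he' t)⟩
  haveI : Nonempty (Fml S.M 1) := ⟨.bot⟩
  obtain ⟨f, hf⟩ := exists_surjective_nat (Fml S.M 1)
  have step : ∀ (n : ℕ) (q : {q // Cond S q}), ∃ r : {q // Cond S q}, Sub S q.1 r.1 ∧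
      (Sat S (W0 S) (f n) ![r.1] ∨ ∀ r', Cond S r' → Sub S r.1 r' → ¬ Sat S (W0 S) (f n) ![r']) := by
    intro n q
    by_cases h1 : ∃ r', Cond S r' ∧ Sub S q.1 r' ∧ Sat S (W0 S) (f n) ![r']
    · obtain ⟨r, h2, h3, h4⟩ := h1
      exact ⟨⟨r, h2⟩, h3, Or.inl h4⟩
    · exact ⟨q, Sub.refl _, Or.inr fun r' h2 h3 h4 => h1 ⟨r', h2, h3, h4⟩⟩
  choose g hg using step
  let p : ℕ → {q // Cond S q} := fun n => Nat.rec ⟨e, h0⟩ (fun k q => g k q) n
  refine ⟨fun n => (p n).1, fun n => (p n).2, fun m n hmn => ?_, fun K hK => ?_⟩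
  · induction hmn with
    | refl => exact Sub.refl _
    | step _ ih => exact ih.trans (hg _ _).1
  · obtain ⟨φ, hφ⟩ := hK.d
    obtain ⟨n, rfl⟩ := hf φ
    refine ⟨n + 1, (hg n (p n)).2.imp (hφ _).1 fun h1 r h2 h3 h4 => h1 r h2 h3 ((hφ _).2 h4)⟩

/-- the interpretation of the generic class and of the parameters -/
def WG (S : Str.{0}) (p : ℕ → S.M) : Option S.M → S.M → Prop
  | none, t => ∃ n, S.mem t (p n)
  | some c, t => t = c

theorem Df.fo1 {k : ℕ} (φ : Fml (Option S.M) k) (v : Fin k → S.M) {n : ℕ}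
    (a : (Fin n → S.M) → S.M) [Tm a] : Df (fun w => Fo S φ (a w) v) :=
  Df.fo φ a (fun i _ => v i) (fun i => Tm.const (v i))

theorem Df.fo2 {k : ℕ} (φ : Fml (Option S.M) (k + 1)) (v : Fin k → S.M) {n : ℕ}
    (a b : (Fin n → S.M) → S.M) [Tm a] [hb : Tm b] :
    Df (fun w => Fo S φ (a w) (Fin.cons (b w) v)) := by
  refine (Df.fo φ a (Fin.cons b (fun i _ => v i)) ?_).congr fun w => ?_
  · intro i
    refine Fin.cases ?_ (fun j => ?_) i
    · exact hb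
    · exact Tm.const (v j)
  · refine iff_of_eq (congrArg _ ?_)
    funext i
    refine Fin.cases ?_ (fun j => ?_) i <;> rfl

variable {p : ℕ → S.M}

theorem Gen.l (hp : Gen S p) (m n : ℕ) : Sub S (p m) (p (max m n)) := hp.mono _ _ (le_max_left _ _)

theorem Gen.r (hp : Gen S p) (m n : ℕ) : Sub S (p n) (p (max m n)) := hp.mono _ _ (le_max_right _ _)

theorem Gen.truth (hp : Gen S p) : ∀ {n : ℕ} (φ : Fml (Option S.M) n) (v : Fin n → S.M),
    Sat S (WG S p) φ v ↔ ∃ m, Fo S φ (p m) v := by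
  intro n φ
  induction φ with
  | mem i j => intro v; exact ⟨fun h => ⟨0, h⟩, fun ⟨_, h⟩ => h⟩
  | eq i j => intro v; exact ⟨fun h => ⟨0, h⟩, fun ⟨_, h⟩ => h⟩
  | ur i => intro v; exact ⟨fun h => ⟨0, h⟩, fun ⟨_, h⟩ => h⟩
  | cls i k =>
    intro v
    cases k with
    | none =>
      refine ⟨fun ⟨m, h⟩ => ⟨m, fun q h1 h2 => ⟨q, h1, Sub.refl q, h2 _ h⟩⟩, fun ⟨m, h⟩ => ?_⟩
      obtain ⟨k, h1 | h1⟩ := hp.gen (fun r => S.mem (v i) r)
      · exact ⟨k, h1⟩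
      · obtain ⟨r, h2, h3, h4⟩ := h _ (hp.cond _) (hp.l m k)
        exact absurd h4 (h1 r h2 ((hp.r m k).trans h3))
    | some c => exact ⟨fun h => ⟨0, h⟩, fun ⟨_, h⟩ => h⟩
  | bot => intro v; exact ⟨fun h => h.elim, fun ⟨_, h⟩ => h⟩
  | imp φ ψ ih1 ih2 =>
    intro v
    constructor
    · intro h
      have h1 := @Df.fo1 S _ φ v
      have h2 := @Df.fo1 S _ ψ v
      obtain ⟨m, h3 | h3⟩ := hp.gen
        (fun r => Fo S φ r v ∧ ∀ r', Cond S r' → Sub S r r' → ¬ Fo S ψ r' v)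
      · obtain ⟨k, hk⟩ := (ih2 v).1 (h ((ih1 v).2 ⟨m, h3.1⟩))
        exact absurd (Fo.mono ψ hk (hp.r m k)) (h3.2 _ (hp.cond _) (hp.l m k))
      · refine ⟨m, fun q h4 h5 h6 => Fo.reg ψ h4 fun q' h7 h8 => ?_⟩
        by_contra h9
        exact h3 q' h7 (h5.trans h8) ⟨Fo.mono φ h6 h8, fun r' a1 a2 a3 => h9 ⟨r', a1, a2, a3⟩⟩
    · rintro ⟨m, h⟩ h1
      obtain ⟨k, hk⟩ := (ih1 v).1 h1
      exact (ih2 v).2 ⟨max m k, h _ (hp.cond _) (hp.l m k) (Fo.mono φ hk (hp.r m k))⟩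
  | all φ ih =>
    intro v
    constructor
    · intro h
      have h1 := @Df.fo2 S _ φ v
      obtain ⟨m, ⟨x, h3⟩ | h3⟩ := hp.gen
        (fun r => ∃ x, ∀ r', Cond S r' → Sub S r r' → ¬ Fo S φ r' (Fin.cons x v))
      · obtain ⟨k, hk⟩ := (ih _).1 (h x)
        exact absurd (Fo.mono φ hk (hp.r m k)) (h3 _ (hp.cond _) (hp.l m k))
      · refine ⟨m, fun x => Fo.reg φ (hp.cond m) fun q' h7 h8 => ?_⟩
        by_contra h9
        exact h3 q' h7 h8 ⟨x, fun r' a1 a2 a3 => h9 ⟨r', a1, a2, a3⟩⟩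
    · rintro ⟨m, h⟩ x
      exact (ih _).2 ⟨m, h x⟩

theorem Gen.rep (hp : Gen S p) (h : ZFCUR S) (R : S.M → S.M → Prop)
    (hR : D (WG S p) (fun v : Fin 2 → S.M => R (v 0) (v 1))) (w : S.M)
    (hu : ∀ x, S.mem x w → ∃! y, R x y) :
    ∃ a, ¬ S.ur a ∧ ∀ y, S.mem y a ↔ ∃ x, S.mem x w ∧ R x y := by
  obtain ⟨φ, hφ⟩ := hR
  have e : ∀ x y, R x y ↔ ∃ m, Fo S φ (p m) ![x, y] := fun x y =>
    (hφ ![x, y]).symm.trans (hp.truth φ _)
  have hF : ∀ {n : ℕ} (a b c : (Fin n → S.M) → S.M) [Tm a] [Tm b] [Tm c],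
      Df (fun v => Fo S φ (a v) ![b v, c v]) := by
    intro n a b c _ hb hc
    refine (Df.fo φ a ![b, c] (fun i => by fin_cases i <;> assumption)).congr fun v => ?_
    refine iff_of_eq (congrArg _ ?_)
    funext i
    fin_cases i <;> rfl
  obtain ⟨m, h1 | h1⟩ := hp.gen (fun q => ∀ x, S.mem x w → (∃ y, Fo S φ q ![x, y]) ∨
      ∀ r, Cond S r → Sub S q r → ∀ y, Fo S φ r ![x, y] →
        ∃ y', y' ≠ y ∧ ∃ r', Cond S r' ∧ Sub S r r' ∧ Fo S φ r' ![x, y'])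
  swap
  · obtain ⟨q, h2, h3, h4⟩ := h.decide φ w (hp.cond m)
    exact absurd h4 (h1 q h2 h3)
  have key : ∀ x, S.mem x w → ∀ y, R x y ↔ Fo S φ (p m) ![x, y] := by
    intro x hx y
    refine ⟨fun hy => ?_, fun hy => (e x y).2 ⟨m, hy⟩⟩
    rcases h1 x hx with ⟨y', h2⟩ | h2
    · rw [(hu x hx).unique hy ((e x y').2 ⟨m, h2⟩)]; exact h2
    · exfalso
      obtain ⟨j, hj⟩ := (e x y).1 hy
      obtain ⟨k, ⟨y', h3, h4⟩ | h3⟩ := hp.gen (fun r => ∃ y', y' ≠ y ∧ Fo S φ r ![x, y'])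
      · exact h3 ((hu x hx).unique ((e x y').2 ⟨k, h4⟩) hy)
      · obtain ⟨y', h4, r', h5, h6, h7⟩ := h2 (p (max (max m j) k)) (hp.cond _)
          ((hp.l m j).trans (hp.l _ k)) y (Fo.mono φ hj ((hp.r m j).trans (hp.l _ k)))
        exact h3 r' h5 ((hp.r _ k).trans h6) ⟨y', h4, h7⟩
  obtain ⟨a, h2, h3⟩ := h.rep (fun x y => Fo S φ (p m) ![x, y]) w
    (fun x hx => by simpa only [key x hx] using hu x hx)
  exact ⟨a, h2, fun y => (h3 y).trans (exists_congr fun x => and_congr_right fun hx =>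
    (key x hx y).symm)⟩

/-- change of the class variables -/
def mapc {κ κ' : Type} (f : κ → κ') : {n : ℕ} → Fml κ n → Fml κ' n
  | _, .mem i j => .mem i j
  | _, .eq i j => .eq i j
  | _, .ur i => .ur i
  | _, .cls i k => .cls i (f k)
  | _, .bot => .bot
  | _, .imp φ ψ => .imp (mapc f φ) (mapc f ψ)
  | _, .all φ => .all (mapc f φ)

theorem sat_mapc {κ κ' : Type} (f : κ → κ') (W : κ' → S.M → Prop) :
    ∀ {n : ℕ} (φ : Fml κ n) (v : Fin n → S.M),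
      Sat S W (mapc f φ) v ↔ Sat S (fun k => W (f k)) φ v := by
  intro n φ
  induction φ with
  | imp φ ψ ih1 ih2 => intro v; simp only [mapc, Sat, ih1, ih2]
  | all φ ih => intro v; simp only [mapc, Sat, ih]
  | _ => intro v; rfl

theorem Df.toD {n : ℕ} {q : (Fin n → S.M) → Prop} (hq : Df q) : D (WG S p) q := by
  obtain ⟨φ, hφ⟩ := hq.d
  exact ⟨mapc some φ, fun v => (sat_mapc some _ φ v).trans (hφ v)⟩

theorem D_app1 {P : S.M → Prop} (hP : D (WG S p) (fun v : Fin 1 → S.M => P (v 0))) {n : ℕ}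
    (a : (Fin n → S.M) → S.M) [ha : Tm a] : D (WG S p) (fun v => P (a v)) := by
  rcases ha.d with ⟨i, hi⟩ | ⟨c, hc⟩
  · exact (D_ren hP (fun _ => i)).congr fun v => by rw [hi]
  · by_cases h1 : P c
    · exact D_bot.not.congr fun v => by rw [hc]; exact ⟨fun _ => h1, fun _ => id⟩
    · exact D_bot.congr fun v => by rw [hc]; exact ⟨False.elim, h1⟩

theorem D_subst {m : ℕ} (W : Fin m → S.M → Prop)
    (hW : ∀ k, D (WG S p) (fun v : Fin 1 → S.M => W k (v 0))) :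
    ∀ {k : ℕ} (φ : Fml (Fin m) k) {n : ℕ} (t : Fin k → (Fin n → S.M) → S.M),
    (∀ i, Tm (t i)) → D (WG S p) (fun v => Sat S W φ (fun i => t i v)) := by
  intro k φ
  induction φ with
  | mem i j => intro n t ht; exact (Df.mem (t i) (t j)).toD
  | eq i j => intro n t ht; exact (Df.eq (t i) (t j)).toD
  | ur i => intro n t ht; exact (Df.ur (t i)).toD
  | cls i c => intro n t ht; exact D_app1 (hW c) (t i)
  | bot => intro n t ht; exact D_bot
  | imp φ ψ ih1 ih2 => intro n t ht; exact (ih1 t ht).imp (ih2 t ht)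
  | @all k φ ih =>
    intro n t ht
    refine D.all (p := fun v x => Sat S W φ (Fin.cons x (fun i => t i v))) ?_
    refine (ih (Fin.cons (fun w => w 0) (fun i w => t i (fun j => w j.succ))) ?_).congr fun v => ?_
    · intro i
      refine Fin.cases ?_ (fun j => ?_) i
      · exact Tm.var 0
      · exact Tm.succ (t j)
    · refine iff_of_eq (congrArg _ ?_)
      funext i
      refine Fin.cases ?_ (fun j => ?_) i <;> rfl

theorem ZFCUR.expand (h : ZFCUR S) [Countable S.M] :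
    ∃ (C : Type) (cm : S.M → C → Prop), GBURGC S C cm := by
  obtain ⟨p, hp⟩ := h.exists_gen
  refine ⟨{P : S.M → Prop // D (WG S p) (fun v : Fin 1 → S.M => P (v 0))}, fun x c => c.1 x,
    h.zcu, fun c d hcd => Subtype.ext (funext fun x => propext (hcd x)), fun m n φ W v => ?_,
    fun c w _ => ?_, fun c w _ hu => ?_, ⟨⟨WG S p none, D.cls none (T.var 0)⟩, ?_, ?_⟩⟩
  · refine ⟨⟨fun x => Sat S (fun k y => (W k).1 y) φ (Fin.cons x v), ?_⟩, fun x => Iff.rfl⟩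
    refine (D_subst (fun k y => (W k).1 y) (fun k => (W k).2) φ
      (Fin.cons (fun w => w 0) (fun i _ => v i)) ?_).congr fun w => ?_
    · intro i
      refine Fin.cases ?_ (fun j => ?_) i
      · exact Tm.var 0
      · exact Tm.const (v j)
    · refine iff_of_eq (congrArg _ ?_)
      funext i
      refine Fin.cases ?_ (fun j => ?_) i <;> rfl
  · by_cases h1 : ∃ z, S.mem z w ∧ c.1 z
    · obtain ⟨z0, h2, h3⟩ := h1
      have d1 : D (WG S p) (fun v : Fin 2 → S.M => c.1 (v 0)) := D_app1 c.2 _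
      obtain ⟨a, h4, h5⟩ := hp.rep h (fun x y => (c.1 x ∧ y = x) ∨ (¬ c.1 x ∧ y = z0))
        ((d1.and (Df.eq _ _).toD).or (d1.not.and (Df.eq _ (fun _ => z0)).toD)) w (by
          intro x _
          by_cases h6 : c.1 x
          · exact ⟨x, Or.inl ⟨h6, rfl⟩, fun y hy => hy.elim (fun h7 => h7.2) (fun h7 => absurd h6 h7.1)⟩
          · exact ⟨z0, Or.inr ⟨h6, rfl⟩,
              fun y hy => hy.elim (fun h7 => absurd h7.1 h6) (fun h7 => h7.2)⟩)
      refine ⟨a, h4, fun z => (h5 z).trans ⟨?_, fun h6 => ⟨z, h6.1, Or.inl ⟨h6.2, rfl⟩⟩⟩⟩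
      rintro ⟨x, h6, ⟨h7, rfl⟩ | ⟨-, rfl⟩⟩
      · exact ⟨h6, h7⟩
      · exact ⟨h2, h3⟩
    · obtain ⟨e, h2, h3⟩ := h.empty
      exact ⟨e, h2, fun z => ⟨fun h4 => absurd h4 (h3 z), fun h4 => absurd ⟨z, h4⟩ h1⟩⟩
  · refine hp.rep h (fun x y => ∃ t, c.1 t ∧ OP S t x y) (D.ex ?_) w hu
    exact (D_app1 c.2 (fun v : Fin 3 → S.M => v 0)).and (Df.op _ _ _).toD
  · rintro x y z ⟨t, ⟨m, h1⟩, h2⟩ ⟨t', ⟨k, h3⟩, h4⟩
    exact (hp.cond (max m k)).2.2 x y z ⟨t, hp.l m k t h1, h2⟩ ⟨t', hp.r m k t' h3, h4⟩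
  · rintro x - ⟨y0, h0⟩
    obtain ⟨m, ⟨y, h1⟩ | h1⟩ := hp.gen (fun r => ∃ y, Pr S r x y)
    · refine ⟨y, (hp.cond m).2.1 x y h1, ?_⟩
      obtain ⟨t, h2, h3⟩ := h1
      exact ⟨t, ⟨m, h2⟩, h3⟩
    · exfalso
      have h2 := h1 _ (hp.cond m) (Sub.refl _)
      obtain ⟨t, ht⟩ := h.opx x y0
      obtain ⟨r, h3, h4⟩ := h.zcu.insert (p m) t
      have e : ∀ a b, Pr S r a b → Pr S (p m) a b ∨ (a = x ∧ b = y0) := by
        rintro a b ⟨s, h5, h6⟩
        rcases (h4 s).1 h5 with h7 | rfl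
        · exact Or.inl ⟨s, h7, h6⟩
        · exact Or.inr (h.opi h6 ht)
      refine h1 r ⟨⟨h3, fun s hs => ?_⟩, fun a b h5 => ?_, fun a b b' h5 h6 => ?_⟩
        (fun s hs => (h4 s).2 (Or.inl hs)) ⟨y0, t, (h4 t).2 (Or.inr rfl), ht⟩
      · rcases (h4 s).1 hs with h7 | rfl
        · exact (hp.cond m).1.2 s h7
        · exact ⟨x, y0, ht⟩
      · rcases e a b h5 with h7 | ⟨rfl, rfl⟩
        · exact (hp.cond m).2.1 a b h7
        · exact h0
      · rcases e a b h5 with h7 | ⟨rfl, rfl⟩ <;> rcases e _ b' h6 with h8 | ⟨h8, rfl⟩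
        · exact (hp.cond m).2.2 a b b' h7 h8
        · exact absurd ⟨b, h8 ▸ h7⟩ h2
        · exact absurd ⟨b', h8⟩ h2
        · rfl

end Pool.Agent.H254Z.GB
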