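import Pool.Agent.H254Z.GB.Gen

set_option autoImplicit false
set_option linter.unreachableTactic false
set_option linter.unusedTactic false

universe u

namespace Pool.Agent.H254Z.GB

open Pool.Agent.H597Z.Ur

/-- Skolem terms -/
abbrev ST : Type := WType (fun a : (Σ n : ℕ, Fml Empty (n + 1)) => Fin a.1)

instance : Countable ST := by
  have : Encodable (Σ n : ℕ, Fml Empty (n + 1)) := Encodable.ofCountable _
  infer_instance

open Classical in
/-- values of Skolem terms -/
noncomputable def ev (S : Str.{u}) (d : S.M) : ST → S.M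
  | ⟨a, f⟩ => if h : ∃ x, ¬ Sat S Empty.elim a.2 (Fin.cons x (fun i => ev S d (f i))) then h.choose
      else d

/-- the Skolem hull -/
def Hull (S : Str.{u}) (d : S.M) : Type := Quotient (Setoid.ker (ev S d))

/-- the embedding of the hull -/
noncomputable def emb (S : Str.{u}) (d : S.M) : Hull S d → S.M :=
  Quotient.lift (ev S d) (fun _ _ h => h)

theorem emb_inj (S : Str.{u}) (d : S.M) : Function.Injective (emb S d) := by
  rintro ⟨a⟩ ⟨b⟩ h
  exact Quotient.sound h

instance (S : Str.{u}) (d : S.M) : Countable (Hull S d) := by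
  unfold Hull; infer_instance

/-- the hull as a structure -/
def HS (S : Str.{u}) (d : S.M) : Str.{0} :=
  ⟨Hull S d, fun a b => S.mem (emb S d a) (emb S d b), fun a => S.ur (emb S d a)⟩

theorem elem (S : Str.{u}) (d : S.M) : ∀ {n : ℕ} (φ : Fml Empty n) (v : Fin n → (HS S d).M),
    Sat (HS S d) Empty.elim φ v ↔ Sat S Empty.elim φ (fun i => emb S d (v i)) := by
  intro n φ
  induction φ with
  | mem i j => intro v; exact Iff.rfl
  | eq i j => intro v; exact (emb_inj S d).eq_iff.symm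
  | ur i => intro v; exact Iff.rfl
  | cls i k => exact k.elim
  | bot => intro v; exact Iff.rfl
  | imp φ ψ ih1 ih2 => intro v; simp only [Sat, ih1, ih2]
  | @all n φ ih =>
    intro v
    have e : ∀ x : (HS S d).M, (fun i => emb S d ((Fin.cons x v : Fin (n + 1) → (HS S d).M) i)) =
        Fin.cons (emb S d x) (fun i => emb S d (v i)) := by
      intro x
      funext i
      refine Fin.cases ?_ (fun j => ?_) i <;> rfl
    simp only [Sat, ih, e]
    refine ⟨fun h => ?_, fun h x => h _⟩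
    by_contra hc
    push Not at hc
    have hv : ∀ i, ∃ t : ST, Quotient.mk _ t = v i := fun i => Quotient.exists_rep (v i)
    choose t ht using hv
    have e2 : (fun i => emb S d (v i)) = fun i => ev S d (t i) := by
      funext i
      rw [← ht i]; rfl
    have h1 := h (Quotient.mk _ (⟨⟨n, φ⟩, t⟩ : ST))
    rw [e2] at hc h1
    have e3 : emb S d (Quotient.mk _ (⟨⟨n, φ⟩, t⟩ : ST)) = hc.choose := by
      change ev S d ⟨⟨n, φ⟩, t⟩ = _
      rw [ev, dif_pos hc]
    rw [e3] at h1
    exact hc.choose_spec h1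

section unif

variable {S : Str.{u}} {S' : Str.{0}} {n : ℕ}

/-- predicates on two structures defined by the same formula -/
def U (p : (Fin n → S.M) → Prop) (p' : (Fin n → S'.M) → Prop) : Prop :=
  ∃ φ : Fml Empty n, (∀ v, Sat S Empty.elim φ v ↔ p v) ∧ ∀ v, Sat S' Empty.elim φ v ↔ p' v

theorem U.mem (i j : Fin n) : U (S := S) (S' := S') (fun v => S.mem (v i) (v j))
    (fun v => S'.mem (v i) (v j)) := ⟨.mem i j, fun _ => Iff.rfl, fun _ => Iff.rfl⟩

theorem U.eq (i j : Fin n) : U (S := S) (S' := S') (fun v => v i = v j)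
    (fun v => v i = v j) := ⟨.eq i j, fun _ => Iff.rfl, fun _ => Iff.rfl⟩

theorem U.ur (i : Fin n) : U (S := S) (S' := S') (fun v => S.ur (v i))
    (fun v => S'.ur (v i)) := ⟨.ur i, fun _ => Iff.rfl, fun _ => Iff.rfl⟩

variable {p q : (Fin n → S.M) → Prop} {p' q' : (Fin n → S'.M) → Prop}

theorem U.congr (hp : U p p') (h : ∀ v, p v ↔ q v) (h' : ∀ v, p' v ↔ q' v) : U q q' := by
  obtain ⟨φ, h1, h2⟩ := hp
  exact ⟨φ, fun v => (h1 v).trans (h v), fun v => (h2 v).trans (h' v)⟩

theorem U.imp (hp : U p p') (hq : U q q') : U (fun v => p v → q v) (fun v => p' v → q' v) := by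
  obtain ⟨φ, h1, h2⟩ := hp
  obtain ⟨ψ, h3, h4⟩ := hq
  exact ⟨.imp φ ψ, fun v => by simp only [Sat, h1, h3], fun v => by simp only [Sat, h2, h4]⟩

theorem U.not (hp : U p p') : U (fun v => ¬ p v) (fun v => ¬ p' v) := by
  obtain ⟨φ, h1, h2⟩ := hp
  exact ⟨.imp φ .bot, fun v => by simp only [Sat, h1], fun v => by simp only [Sat, h2]⟩

theorem U.and (hp : U p p') (hq : U q q') : U (fun v => p v ∧ q v) (fun v => p' v ∧ q' v) :=
  (hp.imp hq.not).not.congr (fun v => by tauto) (fun v => by tauto)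

theorem U.or (hp : U p p') (hq : U q q') : U (fun v => p v ∨ q v) (fun v => p' v ∨ q' v) :=
  (hp.not.imp hq).congr (fun v => by tauto) (fun v => by tauto)

theorem U.iff (hp : U p p') (hq : U q q') : U (fun v => p v ↔ q v) (fun v => p' v ↔ q' v) :=
  ((hp.imp hq).and (hq.imp hp)).congr (fun v => by tauto) (fun v => by tauto)

theorem U.all {p : (Fin n → S.M) → S.M → Prop} {p' : (Fin n → S'.M) → S'.M → Prop}
    (h : U (fun w : Fin (n + 1) → S.M => p (fun i => w i.succ) (w 0))
      (fun w : Fin (n + 1) → S'.M => p' (fun i => w i.succ) (w 0))) :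
    U (fun v => ∀ x, p v x) (fun v => ∀ x, p' v x) := by
  obtain ⟨φ, h1, h2⟩ := h
  exact ⟨.all φ, fun v => by simp only [Sat, h1, Fin.cons_succ, Fin.cons_zero],
    fun v => by simp only [Sat, h2, Fin.cons_succ, Fin.cons_zero]⟩

theorem U.ex {p : (Fin n → S.M) → S.M → Prop} {p' : (Fin n → S'.M) → S'.M → Prop}
    (h : U (fun w : Fin (n + 1) → S.M => p (fun i => w i.succ) (w 0))
      (fun w : Fin (n + 1) → S'.M => p' (fun i => w i.succ) (w 0))) :
    U (fun v => ∃ x, p v x) (fun v => ∃ x, p' v x) :=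
  (U.all (p := fun v x => ¬ p v x) (p' := fun v x => ¬ p' v x) h.not).not.congr
    (fun v => by push Not; rfl) (fun v => by push Not; rfl)

theorem U.sat {k : ℕ} (φ : Fml Empty k) (σ : Fin k → Fin n) :
    U (S := S) (S' := S') (fun v => Sat S Empty.elim φ (fun i => v (σ i)))
      (fun v => Sat S' Empty.elim φ (fun i => v (σ i))) :=
  ⟨ren σ φ, fun v => sat_ren _ φ σ v, fun v => sat_ren _ φ σ v⟩

theorem U.sat1 {k : ℕ} (φ : Fml Empty (k + 1)) (a : Fin n) (σ : Fin k → Fin n) :
    U (S := S) (S' := S') (fun v => Sat S Empty.elim φ (Fin.cons (v a) (fun i => v (σ i))))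
      (fun v => Sat S' Empty.elim φ (Fin.cons (v a) (fun i => v (σ i)))) := by
  refine (U.sat φ (Fin.cons a σ)).congr (fun v => iff_of_eq (congrArg _ ?_))
    (fun v => iff_of_eq (congrArg _ ?_)) <;>
  · funext i
    refine Fin.cases ?_ (fun j => ?_) i <;> rfl

theorem U.sat2 {k : ℕ} (φ : Fml Empty (k + 2)) (a b : Fin n) (σ : Fin k → Fin n) :
    U (S := S) (S' := S')
      (fun v => Sat S Empty.elim φ (Fin.cons (v a) (Fin.cons (v b) (fun i => v (σ i)))))
      (fun v => Sat S' Empty.elim φ (Fin.cons (v a) (Fin.cons (v b) (fun i => v (σ i))))) := by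
  refine (U.sat φ (Fin.cons a (Fin.cons b σ))).congr (fun v => iff_of_eq (congrArg _ ?_))
    (fun v => iff_of_eq (congrArg _ ?_)) <;>
  · funext i
    refine Fin.cases ?_ (fun j => Fin.cases ?_ (fun k => ?_) j) i <;> rfl

end unif

theorem U.tr {S : Str.{u}} {d : S.M} {n : ℕ} {p : (Fin n → S.M) → Prop}
    {p' : (Fin n → (HS S d).M) → Prop} (h : U p p') (hp : ∀ v, p v) (v : Fin n → (HS S d).M) :
    p' v := by
  obtain ⟨φ, h1, h2⟩ := h
  exact (h2 v).1 ((elem S d φ v).2 ((h1 _).2 (hp _)))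

theorem U.tr0 {S : Str.{u}} (d : S.M) {P P' : Prop}
    (h : U (S := S) (S' := HS S d) (n := 0) (fun _ => P) (fun _ => P')) (hp : P) : P' :=
  h.tr (fun _ => hp) Fin.elim0

theorem ZFCUR.hull {S : Str.{u}} (h : ZFCUR S) (d : S.M) : ZFCUR (HS S d) := by
  refine ⟨⟨U.tr0 d ?_ h.zcu.urEmpty, U.tr0 d ?_ h.zcu.ext, U.tr0 d ?_ h.zcu.found,
    U.tr0 d ?_ h.zcu.pair,
    U.tr0 d ?_ h.zcu.union, U.tr0 d ?_ h.zcu.power, U.tr0 d ?_ h.zcu.inf,
    fun n φ => U.tr ?_ (h.zcu.sep n φ), U.tr0 d ?_ h.zcu.ac⟩, fun n φ => U.tr ?_ (h.repl n φ)⟩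
  all_goals
    try unfold H597Z.Ur.Rel
    try unfold ExistsUnique
    repeat' first
      | apply U.ex | apply U.and | apply U.or | apply U.iff | apply U.not | apply U.all
      | apply U.imp | apply U.mem | apply U.ur | apply U.eq | apply U.sat2 | apply U.sat1

theorem conservative (σ : Fml Empty 0)
    (h : ∀ (S : Str.{0}) (C : Type) (cm : S.M → C → Prop), GBURGC S C cm →
      Sat S Empty.elim σ Fin.elim0) (S : Str.{u}) (hS : ZFCUR S) :
    Sat S Empty.elim σ Fin.elim0 := by
  obtain ⟨d, -⟩ := hS.zcu.inf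
  have : Countable (HS S d).M := inferInstanceAs (Countable (Hull S d))
  obtain ⟨C, cm, hC⟩ := (hS.hull d).expand
  have h1 := (elem S d σ _).1 (h _ C cm hC)
  refine (iff_of_eq (congrArg _ ?_)).1 h1
  funext i
  exact i.elim0

end Pool.Agent.H254Z.GB
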