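import Pool.Agent.H254Z.GB.Set1

set_option autoImplicit false

namespace Pool.Agent.H254Z.GB

open Pool.Agent.H597Z.Ur

variable {S : Str.{0}} {n : ℕ}

/-- sets of pairs -/
def Rs (S : Str.{0}) (g : S.M) : Prop := ¬ S.ur g ∧ ∀ p, S.mem p g → ∃ x y, OP S p x y

instance Df.rs (a : (Fin n → S.M) → S.M) [Tm a] : Df (fun v => Rs S (a v)) :=
  Df.app1 (P := fun x => Rs S x) (by unfold Rs; infer_instance) a

theorem ZFCUR.rs_ext (h : ZFCUR S) {g g' : S.M} (h1 : Rs S g) (h2 : Rs S g')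
    (h3 : ∀ x y, Pr S g x y ↔ Pr S g' x y) : g = g' := by
  refine h.zcu.ext g g' h1.1 h2.1 fun p => ⟨fun hp => ?_, fun hp => ?_⟩
  · obtain ⟨x, y, h4⟩ := h1.2 p hp
    exact (h.pr_iff h4).1 ((h3 x y).1 ⟨p, hp, h4⟩)
  · obtain ⟨x, y, h4⟩ := h2.2 p hp
    exact (h.pr_iff h4).1 ((h3 x y).2 ⟨p, hp, h4⟩)

theorem ZFCUR.graph (h : ZFCUR S) (R : S.M → S.M → Prop)
    [hR : Df (fun v : Fin 2 → S.M => R (v 0) (v 1))] (w : S.M)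
    (hf : ∀ x, S.mem x w → ∀ y y', R x y → R x y' → y = y') :
    ∃ g, Rs S g ∧ ∀ x y, Pr S g x y ↔ S.mem x w ∧ R x y := by
  have hR' : ∀ {n : ℕ} (a b : (Fin n → S.M) → S.M) [Tm a] [Tm b], Df (fun v => R (a v) (b v)) :=
    fun a b _ _ => hR.app2 a b
  obtain ⟨w', -, hw'⟩ := h.sep (fun x => ∃ y, R x y) w
  obtain ⟨T, -, hT⟩ := h.rep R w' (fun x hx => by
    obtain ⟨h1, y, h2⟩ := (hw' x).1 hx
    exact ⟨y, h2, fun y' h3 => hf x h1 y' y h3 h2⟩)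
  obtain ⟨r, h1, h2, h3⟩ := h.relSet R w T
  refine ⟨r, ⟨h1, h2⟩, fun x y => (h3 x y).trans ⟨fun h4 => ⟨h4.1, h4.2.2⟩, fun h4 => ⟨h4.1, ?_, h4.2⟩⟩⟩
  exact (hT y).2 ⟨x, (hw' x).2 ⟨h4.1, y, h4.2⟩, h4.2⟩

theorem ZFCUR.ran (h : ZFCUR S) (f : S.M) :
    ∃ b, ¬ S.ur b ∧ ∀ t, S.mem t b ↔ ∃ c, Pr S f c t := by
  obtain ⟨w', -, hw'⟩ := h.sep (fun p => ∃ c t, OP S p c t) f
  obtain ⟨T, h0, hT⟩ := h.rep (fun p t => ∃ c, OP S p c t) w' (fun p hp => by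
    obtain ⟨-, c, t, h2⟩ := (hw' p).1 hp
    exact ⟨t, ⟨c, h2⟩, fun t' ⟨c', h3⟩ => (h.opi h3 h2).2⟩)
  refine ⟨T, h0, fun t => (hT t).trans ⟨?_, ?_⟩⟩
  · rintro ⟨p, hp, c, h1⟩
    exact ⟨c, p, ((hw' p).1 hp).1, h1⟩
  · rintro ⟨c, p, hp, h1⟩
    exact ⟨p, (hw' p).2 ⟨hp, c, t, h1⟩, c, h1⟩

theorem ZFCUR.irrefl (h : ZFCUR S) (x : S.M) : ¬ S.mem x x := fun h1 => h.asymm h1 h1

section recur

variable (lt : S.M → S.M → Prop) (St : S.M → S.M → S.M → Prop)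

/-- approximations -/
def Ap (f : S.M) : Prop := ∀ a b, Pr S f a b → ∃ g, Rs S g ∧
  (∀ c d, Pr S g c d ↔ lt c a ∧ Pr S f c d) ∧ (∀ c, lt c a → ∃ d, Pr S f c d) ∧ St a g b

/-- values -/
def Val (a b : S.M) : Prop := ∃ f, Ap lt St f ∧ Pr S f a b

theorem ZFCUR.wf_ind (h : ZFCUR S) [hlt : Df (fun v : Fin 2 → S.M => lt (v 0) (v 1))]
    (hwf : ∀ y, (∃ a, S.mem a y) → ∃ a, S.mem a y ∧ ∀ c, S.mem c y → ¬ lt c a)
    (hcl : ∀ a, ∃ D, S.mem a D ∧ ∀ c, S.mem c D → ∀ e, lt e c → S.mem e D)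
    (P : S.M → Prop) [Df (fun v : Fin 1 → S.M => P (v 0))]
    (hP : ∀ x, (∀ y, lt y x → P y) → P x) (x : S.M) : P x := by
  by_contra hx
  obtain ⟨t, ht, htr⟩ := hcl x
  obtain ⟨s, -, hs⟩ := h.sep (fun y => ¬ P y) t
  obtain ⟨y, hy, h1⟩ := hwf s ⟨x, (hs x).2 ⟨ht, hx⟩⟩
  obtain ⟨h2, h3⟩ := (hs y).1 hy
  refine h3 (hP y fun z hz => ?_)
  by_contra hz'
  exact h1 z ((hs z).2 ⟨htr y h2 z hz, hz'⟩) hz

theorem ZFCUR.recur (h : ZFCUR S) [hlt : Df (fun v : Fin 2 → S.M => lt (v 0) (v 1))]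
    [hSt : Df (fun v : Fin 3 → S.M => St (v 0) (v 1) (v 2))]
    (hwf : ∀ y, (∃ a, S.mem a y) → ∃ a, S.mem a y ∧ ∀ c, S.mem c y → ¬ lt c a)
    (hcl : ∀ a, ∃ D, S.mem a D ∧ ∀ c, S.mem c D → ∀ e, lt e c → S.mem e D)
    (hu : ∀ a g, ∃! b, St a g b) :
    ∃ F : S.M → S.M, Df (fun v : Fin 2 → S.M => F (v 0) = v 1) ∧
      ∀ a, ∃ g, (∀ c d, Pr S g c d ↔ lt c a ∧ F c = d) ∧ St a g (F a) := by
  have hlt' : ∀ {n : ℕ} (a b : (Fin n → S.M) → S.M) [Tm a] [Tm b], Df (fun v => lt (a v) (b v)) :=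
    fun a b _ _ => hlt.app2 a b
  have hSt' : ∀ {n : ℕ} (a b c : (Fin n → S.M) → S.M) [Tm a] [Tm b] [Tm c],
      Df (fun v => St (a v) (b v) (c v)) := fun a b c _ _ _ => hSt.app3 a b c
  have hV : Df (fun v : Fin 2 → S.M => Val lt St (v 0) (v 1)) := by
    unfold Val Ap; infer_instance
  have hV' : ∀ {n : ℕ} (a b : (Fin n → S.M) → S.M) [Tm a] [Tm b],
      Df (fun v => Val lt St (a v) (b v)) := fun a b _ _ => hV.app2 a b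
  have uniq : ∀ a b b', Val lt St a b → Val lt St a b' → b = b' := by
    refine h.wf_ind lt hwf hcl (fun a => ∀ b b', Val lt St a b → Val lt St a b' → b = b') ?_
    rintro a ih b b' ⟨f, hf, h1⟩ ⟨f', hf', h1'⟩
    obtain ⟨g, g1, g2, g3, g4⟩ := hf a b h1
    obtain ⟨g', g1', g2', g3', g4'⟩ := hf' a b' h1'
    have e : g = g' := by
      refine h.rs_ext g1 g1' fun c d => ?_
      rw [g2, g2']
      refine and_congr_right fun hc => ⟨fun h2 => ?_, fun h2 => ?_⟩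
      · obtain ⟨d', h3⟩ := g3' c hc
        rw [ih c hc d d' ⟨f, hf, h2⟩ ⟨f', hf', h3⟩]; exact h3
      · obtain ⟨d', h3⟩ := g3 c hc
        rw [ih c hc d d' ⟨f', hf', h2⟩ ⟨f, hf, h3⟩]; exact h3
    subst e
    exact (hu a g).unique g4 g4'
  have unf : ∀ a b, Val lt St a b → ∃ g, Rs S g ∧ (∀ c d, Pr S g c d ↔ lt c a ∧ Val lt St c d) ∧
      (∀ c, lt c a → ∃ d, Val lt St c d) ∧ St a g b := by
    rintro a b ⟨f, hf, h1⟩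
    obtain ⟨g, g1, g2, g3, g4⟩ := hf a b h1
    refine ⟨g, g1, fun c d => ?_, fun c hc => ?_, g4⟩
    · rw [g2]
      refine and_congr_right fun hc => ⟨fun h2 => ⟨f, hf, h2⟩, fun h2 => ?_⟩
      obtain ⟨d', h3⟩ := g3 c hc
      rw [uniq c d d' h2 ⟨f, hf, h3⟩]; exact h3
    · obtain ⟨d', h3⟩ := g3 c hc
      exact ⟨d', f, hf, h3⟩
  have tot : ∀ a, ∃ b, Val lt St a b := by
    refine h.wf_ind lt hwf hcl (fun a => ∃ b, Val lt St a b) ?_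
    intro a ih
    by_contra hc
    obtain ⟨D, hD, hD'⟩ := hcl a
    obtain ⟨f0, -, hf0⟩ := h.graph (fun c d => Val lt St c d) D (fun c _ d d' => uniq c d d')
    obtain ⟨g, g1, hg⟩ := h.graph (fun c d => lt c a ∧ Val lt St c d) D
      (fun c _ d d' h1 h2 => uniq c d d' h1.2 h2.2)
    obtain ⟨b, hb, -⟩ := hu a g
    obtain ⟨f, hf⟩ := h.addPair f0 a b
    have key : ∀ c, S.mem c D → ∀ e d, lt e c → (∃ d', Val lt St e d') →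
        (Pr S f e d ↔ Val lt St e d) := by
      intro c hcD e d he hv
      rw [hf, hf0]
      refine ⟨?_, fun h1 => Or.inl ⟨hD' c hcD e he, h1⟩⟩
      rintro (h1 | ⟨rfl, -⟩)
      · exact h1.2
      · exact absurd hv hc
    refine hc ⟨b, f, fun c d hcd => ?_, (hf a b).2 (Or.inr ⟨rfl, rfl⟩)⟩
    rcases (hf c d).1 hcd with h1 | ⟨rfl, rfl⟩
    · obtain ⟨h2, h3⟩ := (hf0 c d).1 h1
      obtain ⟨g', a1, a2, a3, a4⟩ := unf c d h3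
      refine ⟨g', a1, fun e d' => ?_, fun e he => ?_, a4⟩
      · rw [a2]
        exact and_congr_right fun he => (key c h2 e d' he (a3 e he)).symm
      · obtain ⟨d', h4⟩ := a3 e he
        exact ⟨d', (key c h2 e d' he ⟨d', h4⟩).2 h4⟩
    · refine ⟨g, g1, fun e d' => ?_, fun e he => ?_, hb⟩
      · rw [hg]
        refine ⟨fun h4 => ⟨h4.2.1, (key c hD e d' h4.2.1 (ih e h4.2.1)).2 h4.2.2⟩, fun h4 =>
          ⟨hD' c hD e h4.1, h4.1, (key c hD e d' h4.1 (ih e h4.1)).1 h4.2⟩⟩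
      · obtain ⟨d', h4⟩ := ih e he
        exact ⟨d', (key c hD e d' he ⟨d', h4⟩).2 h4⟩
  choose F hF using tot
  have e : ∀ c d, Val lt St c d ↔ F c = d :=
    fun c d => ⟨fun h1 => uniq c _ _ (hF c) h1, fun h1 => h1 ▸ hF c⟩
  refine ⟨F, hV.congr fun v => e _ _, fun a => ?_⟩
  obtain ⟨g, -, a2, -, a4⟩ := unf a _ (hF a)
  exact ⟨g, by simpa only [e] using a2, a4⟩

end recur

/-! ### well-orders -/

/-- `r` well-orders `x` -/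
def WO (S : Str.{0}) (r x : S.M) : Prop :=
  (∀ a b, S.mem a x → S.mem b x → Pr S r a b → Pr S r b a → a = b) ∧
  (∀ a b c, S.mem a x → S.mem b x → S.mem c x → Pr S r a b → Pr S r b c → Pr S r a c) ∧
  ∀ y, (∀ z, S.mem z y → S.mem z x) → (∃ z, S.mem z y) →
    ∃ a, S.mem a y ∧ ∀ b, S.mem b y → Pr S r a b

theorem ZFCUR.wo (h : ZFCUR S) (x : S.M) : ∃ r, WO S r x := by
  by_cases hx : S.ur x
  · exact ⟨x, fun a _ ha => absurd ha (h.zcu.urEmpty x a hx),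
      fun a _ _ ha => absurd ha (h.zcu.urEmpty x a hx),
      fun y hy ⟨z, hz⟩ => absurd (hy z hz) (h.zcu.urEmpty x z hx)⟩
  · obtain ⟨r, -, hr⟩ := h.zcu.ac x hx
    exact ⟨r, hr⟩

/-- strict order -/
def Lt (S : Str.{0}) (r x c a : S.M) : Prop := S.mem c x ∧ S.mem a x ∧ Pr S r c a ∧ c ≠ a

instance Df.lt (a b c d : (Fin n → S.M) → S.M) [Tm a] [Tm b] [Tm c] [Tm d] :
    Df (fun v => Lt S (a v) (b v) (c v) (d v)) :=
  Df.app4 (P := fun x y z w => Lt S x y z w) (by unfold Lt; infer_instance) a b c d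

theorem ZFCUR.wo_wf (h : ZFCUR S) {r x : S.M} (hr : WO S r x) (y : S.M) (hy : ∃ a, S.mem a y) :
    ∃ a, S.mem a y ∧ ∀ c, S.mem c y → ¬ Lt S r x c a := by
  by_cases h1 : ∃ a, S.mem a y ∧ S.mem a x
  · obtain ⟨s, -, hs⟩ := h.sep (fun a => S.mem a x) y
    obtain ⟨a0, h2⟩ := h1
    obtain ⟨a, ha, h3⟩ := hr.2.2 s (fun z hz => ((hs z).1 hz).2) ⟨a0, (hs a0).2 h2⟩
    refine ⟨a, ((hs a).1 ha).1, fun c hc h4 => h4.2.2.2 ?_⟩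
    exact hr.1 c a h4.1 h4.2.1 h4.2.2.1 (h3 c ((hs c).2 ⟨hc, h4.1⟩))
  · obtain ⟨a, ha⟩ := hy
    exact ⟨a, ha, fun c _ h4 => h1 ⟨a, ha, h4.2.1⟩⟩

theorem ZFCUR.wo_cl (h : ZFCUR S) (r x a : S.M) :
    ∃ D, S.mem a D ∧ ∀ c, S.mem c D → ∀ e, Lt S r x e c → S.mem e D := by
  obtain ⟨D, -, hD⟩ := h.zcu.insert x a
  exact ⟨D, (hD a).2 (Or.inr rfl), fun c _ e he => (hD e).2 (Or.inl he.1)⟩

theorem ZFCUR.wo_tri (h : ZFCUR S) {r x a b : S.M} (hr : WO S r x) (ha : S.mem a x)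
    (hb : S.mem b x) : Lt S r x a b ∨ a = b ∨ Lt S r x b a := by
  by_cases e : a = b
  · exact Or.inr (Or.inl e)
  obtain ⟨p, -, hp⟩ := h.zcu.pair a b
  obtain ⟨c, hc, h1⟩ := hr.2.2 p (fun z hz => by rcases (hp z).1 hz with rfl | rfl <;> assumption)
    ⟨a, (hp a).2 (Or.inl rfl)⟩
  rcases (hp c).1 hc with rfl | rfl
  · exact Or.inl ⟨ha, hb, h1 b ((hp b).2 (Or.inr rfl)), e⟩
  · exact Or.inr (Or.inr ⟨hb, ha, h1 a ((hp a).2 (Or.inl rfl)), Ne.symm e⟩)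

theorem WO.lt_trans {r x a b c : S.M} (hr : WO S r x) (h1 : Lt S r x a b) (h2 : Lt S r x b c) :
    Lt S r x a c := by
  refine ⟨h1.1, h2.2.1, hr.2.1 a b c h1.1 h1.2.1 h2.2.1 h1.2.2.1 h2.2.2.1, ?_⟩
  rintro rfl
  exact h1.2.2.2 (hr.1 a b h1.1 h1.2.1 h1.2.2.1 h2.2.2.1)

theorem ZFCUR.wo_least (h : ZFCUR S) {r x : S.M} (hr : WO S r x) (K : S.M → Prop)
    [Df (fun v : Fin 1 → S.M => K (v 0))] (hK : ∃ a, S.mem a x ∧ K a) :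
    ∃! a, S.mem a x ∧ K a ∧ ∀ b, S.mem b x → K b → Pr S r a b := by
  obtain ⟨s, -, hs⟩ := h.sep K x
  obtain ⟨a0, h2⟩ := hK
  obtain ⟨a, ha, h3⟩ := hr.2.2 s (fun z hz => ((hs z).1 hz).1) ⟨a0, (hs a0).2 h2⟩
  obtain ⟨h4, h5⟩ := (hs a).1 ha
  refine ⟨a, ⟨h4, h5, fun b h6 h7 => h3 b ((hs b).2 ⟨h6, h7⟩)⟩, ?_⟩
  rintro a' ⟨h6, h7, h8⟩
  exact hr.1 a' a h6 h4 (h8 a h4 h5) (h3 a' ((hs a').2 ⟨h6, h7⟩))

end Pool.Agent.H254Z.GB
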