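import Pool.Agent.H254Z.GB.Df
import Pool.Agent.H597Z.UrGB

set_option autoImplicit false

namespace Pool.Agent.H254Z.GB

open Pool.Agent.H597Z.Ur

variable {S : Str.{0}} {n : ℕ}

/-- the pair of `x`, `y` belongs to `r` -/
def Pr (S : Str.{0}) (r x y : S.M) : Prop := ∃ p, S.mem p r ∧ OP S p x y

instance Df.pr (a b c : (Fin n → S.M) → S.M) [Tm a] [Tm b] [Tm c] :
    Df (fun v => Pr S (a v) (b v) (c v)) :=
  Df.app3 (P := fun x y z => Pr S x y z) (by unfold Pr; infer_instance) a b c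

theorem ZFCUR.opx (h : ZFCUR S) (x y : S.M) : ∃ p, OP S p x y :=
  op_exists h.zcu.pair h.zcu.ext x y

theorem ZFCUR.opu (h : ZFCUR S) {p q x y : S.M} (hp : OP S p x y) (hq : OP S q x y) : p = q :=
  op_unique h.zcu.ext hp hq

theorem ZFCUR.opi (h : ZFCUR S) {p x y x' y' : S.M} (hp : OP S p x y) (hq : OP S p x' y') :
    x = x' ∧ y = y' := op_inj h.zcu.pair hp hq

theorem ZFCUR.pr_iff (h : ZFCUR S) {r p x y : S.M} (hp : OP S p x y) : Pr S r x y ↔ S.mem p r :=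
  ⟨fun ⟨_, h1, h2⟩ => h.opu h2 hp ▸ h1, fun h1 => ⟨p, h1, hp⟩⟩

theorem ZFCUR.relSet (h : ZFCUR S) (R : S.M → S.M → Prop)
    [hR : Df (fun v : Fin 2 → S.M => R (v 0) (v 1))] (T T' : S.M) :
    ∃ r, ¬ S.ur r ∧ (∀ p, S.mem p r → ∃ x y, OP S p x y) ∧
      ∀ x y, Pr S r x y ↔ S.mem x T ∧ S.mem y T' ∧ R x y := by
  have hR' : ∀ {n : ℕ} (a b : (Fin n → S.M) → S.M) [Tm a] [Tm b], Df (fun v => R (a v) (b v)) :=
    fun a b _ _ => hR.app2 a b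
  obtain ⟨a, -, ha⟩ := h.zcu.prod T T'
  obtain ⟨r, hr, h1⟩ := h.sep (fun p => ∃ x y, OP S p x y ∧ S.mem x T ∧ S.mem y T' ∧ R x y) a
  refine ⟨r, hr, fun p hp => ?_, fun x y => ⟨?_, ?_⟩⟩
  · obtain ⟨-, x, y, h2, -⟩ := (h1 p).1 hp
    exact ⟨x, y, h2⟩
  · rintro ⟨p, hp, h2⟩
    obtain ⟨-, x', y', h3, h4⟩ := (h1 p).1 hp
    obtain ⟨rfl, rfl⟩ := h.opi h2 h3
    exact h4
  · intro h2
    obtain ⟨p, hp⟩ := h.opx x y
    exact ⟨p, (h1 p).2 ⟨ha p x y h2.1 h2.2.1 hp, x, y, hp, h2⟩, hp⟩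

theorem ZFCUR.addPair (h : ZFCUR S) (g k z : S.M) :
    ∃ g', ∀ a b, Pr S g' a b ↔ Pr S g a b ∨ (a = k ∧ b = z) := by
  obtain ⟨p, hp⟩ := h.opx k z
  obtain ⟨g', -, hg'⟩ := h.zcu.insert g p
  refine ⟨g', fun a b => ⟨?_, ?_⟩⟩
  · rintro ⟨q, h1, h2⟩
    rcases (hg' q).1 h1 with h3 | rfl
    · exact Or.inl ⟨q, h3, h2⟩
    · exact Or.inr (h.opi h2 hp)
  · rintro (⟨q, h1, h2⟩ | ⟨rfl, rfl⟩)
    · exact ⟨q, (hg' q).2 (Or.inl h1), h2⟩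
    · exact ⟨p, (hg' p).2 (Or.inr rfl), hp⟩

theorem ZFCUR.asymm (h : ZFCUR S) {x y : S.M} (h1 : S.mem x y) (h2 : S.mem y x) : False := by
  obtain ⟨p, -, hp⟩ := h.zcu.pair x y
  obtain ⟨z, hz, h3⟩ := h.zcu.found p ⟨x, (hp x).2 (Or.inl rfl)⟩
  rcases (hp z).1 hz with rfl | rfl
  · exact h3 y h2 ((hp y).2 (Or.inr rfl))
  · exact h3 x h1 ((hp x).2 (Or.inl rfl))

/-- transitive sets -/
def Tr (S : Str.{0}) (t : S.M) : Prop := ∀ y, S.mem y t → ∀ z, S.mem z y → S.mem z t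

instance Df.tr (a : (Fin n → S.M) → S.M) [Tm a] : Df (fun v => Tr S (a v)) :=
  Df.app1 (P := fun x => Tr S x) (by unfold Tr; infer_instance) a

/-- successor -/
def Sc (S : Str.{0}) (s x : S.M) : Prop := ¬ S.ur s ∧ ∀ z, S.mem z s ↔ S.mem z x ∨ z = x

instance Df.sc (a b : (Fin n → S.M) → S.M) [Tm a] [Tm b] : Df (fun v => Sc S (a v) (b v)) :=
  Df.app2 (P := fun x y => Sc S x y) (by unfold Sc; infer_instance) a b

/-- union -/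
def Un (S : Str.{0}) (z x : S.M) : Prop :=
  ¬ S.ur z ∧ ∀ t, S.mem t z ↔ ∃ s, S.mem s x ∧ S.mem t s

instance Df.un (a b : (Fin n → S.M) → S.M) [Tm a] [Tm b] : Df (fun v => Un S (a v) (b v)) :=
  Df.app2 (P := fun x y => Un S x y) (by unfold Un; infer_instance) a b

/-- iterated unions -/
def It (S : Str.{0}) (e x0 k z : S.M) : Prop :=
  ∃ g, Pr S g k z ∧ ∀ a b, Pr S g a b →
    (a = e ∧ b = x0) ∨ ∃ a' b', Pr S g a' b' ∧ Sc S a a' ∧ Un S b b'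

instance Df.it (a b c d : (Fin n → S.M) → S.M) [Tm a] [Tm b] [Tm c] [Tm d] :
    Df (fun v => It S (a v) (b v) (c v) (d v)) :=
  Df.app4 (P := fun x y z w => It S x y z w) (by unfold It; infer_instance) a b c d

theorem ZFCUR.exists_tc (h : ZFCUR S) (x : S.M) : ∃ t, S.mem x t ∧ Tr S t := by
  obtain ⟨a, ⟨e, hea, he1, he2⟩, ha⟩ := h.zcu.inf
  obtain ⟨x0, -, hx0⟩ := h.zcu.pair x x
  obtain ⟨om, -, hom⟩ := h.sep
    (fun k => ∀ b, S.mem e b → (∀ y, S.mem y b → ∀ s, Sc S s y → S.mem s b) → S.mem k b) a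
  have scu : ∀ s s' y, Sc S s y → Sc S s' y → s = s' := fun s s' y h1 h2 =>
    h.zcu.ext s s' h1.1 h2.1 fun z => (h1.2 z).trans (h2.2 z).symm
  have om0 : S.mem e om := (hom e).2 ⟨hea, fun b hb _ => hb⟩
  have omS : ∀ y, S.mem y om → ∀ s, Sc S s y → S.mem s om := by
    intro y hy s hs
    obtain ⟨h1, h2⟩ := (hom y).1 hy
    obtain ⟨s', h3, h4⟩ := ha y h1
    rw [scu s s' y hs h4]
    exact (hom s').2 ⟨h3, fun b hb hb' => hb' y (h2 b hb hb') s' h4⟩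
  have unf : ∀ k z, It S e x0 k z →
      (k = e ∧ z = x0) ∨ ∃ a' b', It S e x0 a' b' ∧ Sc S k a' ∧ Un S z b' := by
    rintro k z ⟨g, h1, h2⟩
    rcases h2 k z h1 with h3 | ⟨a', b', h3, h4⟩
    · exact Or.inl h3
    · exact Or.inr ⟨a', b', ⟨g, h3, h2⟩, h4⟩
  have it0 : It S e x0 e x0 := by
    obtain ⟨g, hg⟩ := h.addPair e e x0
    refine ⟨g, (hg _ _).2 (Or.inr ⟨rfl, rfl⟩), fun a b hab => ?_⟩
    rcases (hg a b).1 hab with ⟨p, hp, -⟩ | h1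
    · exact absurd hp (he2 p)
    · exact Or.inl h1
  have itS : ∀ a' b' k z, It S e x0 a' b' → Sc S k a' → Un S z b' → It S e x0 k z := by
    rintro a' b' k z ⟨g, h1, h2⟩ h3 h4
    obtain ⟨g', hg⟩ := h.addPair g k z
    refine ⟨g', (hg _ _).2 (Or.inr ⟨rfl, rfl⟩), fun a b hab => ?_⟩
    rcases (hg a b).1 hab with h5 | ⟨rfl, rfl⟩
    · rcases h2 a b h5 with h6 | ⟨c, d, h6, h7⟩
      · exact Or.inl h6
      · exact Or.inr ⟨c, d, (hg _ _).2 (Or.inl h6), h7⟩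
    · exact Or.inr ⟨a', b', (hg _ _).2 (Or.inl h1), h3, h4⟩
  have huniq : ∀ k, S.mem k om → ∃! z, It S e x0 k z := by
    obtain ⟨b, -, hb⟩ := h.sep
      (fun k => ∃ z, It S e x0 k z ∧ ∀ z', It S e x0 k z' → z' = z) om
    intro k hk
    refine ((hb k).1 (((hom k).1 hk).2 b ((hb e).2 ⟨om0, x0, it0, fun z' hz' => ?_⟩) ?_)).2
    · rcases unf e z' hz' with h1 | ⟨a', b', -, h1, -⟩
      · exact h1.2
      · exact absurd ((h1.2 a').2 (Or.inr rfl)) (he2 a')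
    · intro y hy s hs
      obtain ⟨hy1, z, hz, hz'⟩ := (hb y).1 hy
      obtain ⟨u, hu⟩ := h.zcu.union' z
      refine (hb s).2 ⟨omS y hy1 s hs, u, itS y z s u hz hs hu, fun z' h1 => ?_⟩
      rcases unf s z' h1 with h2 | ⟨a', b', h2, h3, h4⟩
      · exact absurd (h2.1 ▸ (hs.2 y).2 (Or.inr rfl)) (he2 y)
      · have e1 : a' = y := by
          rcases (hs.2 a').1 ((h3.2 a').2 (Or.inr rfl)) with h5 | h5
          · rcases (h3.2 y).1 ((hs.2 y).2 (Or.inr rfl)) with h6 | h6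
            · exact (h.asymm h5 h6).elim
            · exact h6.symm
          · exact h5
        subst e1
        rw [hz' b' h2] at h4
        exact h.zcu.ext z' u h4.1 hu.1 fun t => (h4.2 t).trans (hu.2 t).symm
  obtain ⟨R, -, hR⟩ := h.rep (fun k z => It S e x0 k z) om huniq
  obtain ⟨t, -, ht⟩ := h.zcu.union' R
  refine ⟨t, (ht x).2 ⟨x0, (hR x0).2 ⟨e, om0, it0⟩, (hx0 x).2 (Or.inl rfl)⟩, fun y hy z hz => ?_⟩
  obtain ⟨b, hb, hyb⟩ := (ht y).1 hy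
  obtain ⟨k, hk, hkb⟩ := (hR b).1 hb
  obtain ⟨s, hs⟩ := h.zcu.insert k k
  obtain ⟨u, hu⟩ := h.zcu.union' b
  exact (ht z).2 ⟨u, (hR u).2 ⟨s, omS k hk s hs, itS k b s u hkb hs hu⟩, (hu.2 z).2 ⟨y, hyb, hz⟩⟩

theorem ZFCUR.mem_ind (h : ZFCUR S) (P : S.M → Prop) [Df (fun v : Fin 1 → S.M => P (v 0))]
    (hP : ∀ x, (∀ y, S.mem y x → P y) → P x) (x : S.M) : P x := by
  by_contra hx
  obtain ⟨t, ht, htr⟩ := h.exists_tc x
  obtain ⟨s, -, hs⟩ := h.sep (fun y => ¬ P y) t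
  obtain ⟨y, hy, h1⟩ := h.zcu.found s ⟨x, (hs x).2 ⟨ht, hx⟩⟩
  obtain ⟨h2, h3⟩ := (hs y).1 hy
  refine h3 (hP y fun z hz => ?_)
  by_contra hz'
  exact h1 z hz ((hs z).2 ⟨htr y h2 z hz, hz'⟩)

/-- the kernel of `x` is contained in `A` -/
def In (S : Str.{0}) (A x : S.M) : Prop :=
  ∃ t, S.mem x t ∧ Tr S t ∧ ∀ a, S.mem a t → S.ur a → S.mem a A

instance Df.in (a b : (Fin n → S.M) → S.M) [Tm a] [Tm b] : Df (fun v => In S (a v) (b v)) :=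
  Df.app2 (P := fun x y => In S x y) (by unfold In; infer_instance) a b

theorem In.mem {A x y : S.M} (h1 : In S A x) (h2 : S.mem y x) : In S A y := by
  obtain ⟨t, h3, h4, h5⟩ := h1
  exact ⟨t, h4 x h3 y h2, h4, h5⟩

theorem In.ur {A x : S.M} (h1 : In S A x) (h2 : S.ur x) : S.mem x A := by
  obtain ⟨t, h3, -, h5⟩ := h1
  exact h5 x h3 h2

theorem In.mono {A A' x : S.M} (h1 : In S A x) (h2 : ∀ a, S.mem a A → S.mem a A') :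
    In S A' x := by
  obtain ⟨t, h3, h4, h5⟩ := h1
  exact ⟨t, h3, h4, fun a h6 h7 => h2 a (h5 a h6 h7)⟩

theorem ZFCUR.in_of (h : ZFCUR S) {A x : S.M} (h1 : S.ur x → S.mem x A)
    (h2 : ∀ y, S.mem y x → In S A y) : In S A x := by
  obtain ⟨t, ht, htr⟩ := h.exists_tc x
  obtain ⟨s, -, hs⟩ := h.sep (fun z => In S A z ∨ z = x) t
  refine ⟨s, (hs x).2 ⟨ht, Or.inr rfl⟩, fun y hy z hz => ?_, fun a ha hu => ?_⟩
  · obtain ⟨h3, h4⟩ := (hs y).1 hy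
    refine (hs z).2 ⟨htr y h3 z hz, Or.inl ?_⟩
    rcases h4 with h4 | rfl
    · exact h4.mem hz
    · exact h2 z hz
  · rcases ((hs a).1 ha).2 with h4 | rfl
    · exact h4.ur hu
    · exact h1 hu

theorem ZFCUR.in_inter (h : ZFCUR S) {A A' A'' x : S.M} (h1 : In S A x) (h2 : In S A' x)
    (h3 : ∀ a, S.mem a A → S.mem a A' → S.mem a A'') : In S A'' x := by
  obtain ⟨t, a1, a2, a3⟩ := h1
  obtain ⟨t', b1, b2, b3⟩ := h2
  obtain ⟨s, -, hs⟩ := h.sep (fun z => S.mem z t') t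
  refine ⟨s, (hs x).2 ⟨a1, b1⟩, fun y hy z hz => ?_, fun a ha hu => ?_⟩
  · exact (hs z).2 ⟨a2 y ((hs y).1 hy).1 z hz, b2 y ((hs y).1 hy).2 z hz⟩
  · exact h3 a (a3 a ((hs a).1 ha).1 hu) (b3 a ((hs a).1 ha).2 hu)

theorem ZFCUR.exists_in (h : ZFCUR S) (x : S.M) :
    ∃ A, (∀ a, S.mem a A → S.ur a) ∧ In S A x := by
  obtain ⟨t, ht, htr⟩ := h.exists_tc x
  obtain ⟨A, -, hA⟩ := h.sep (fun z => S.ur z) t
  exact ⟨A, fun a ha => ((hA a).1 ha).2, t, ht, htr, fun a h1 h2 => (hA a).2 ⟨h1, h2⟩⟩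

theorem ZFCUR.in_op (h : ZFCUR S) {A p x y : S.M} (hp : OP S p x y) :
    In S A p ↔ In S A x ∧ In S A y := by
  constructor
  · intro h1
    obtain ⟨d, hd, hd'⟩ := h.zcu.pair x y
    have h2 := h1.mem ((hp.2 d).2 ⟨hd, Or.inr hd'⟩)
    exact ⟨h2.mem ((hd' x).2 (Or.inl rfl)), h2.mem ((hd' y).2 (Or.inr rfl))⟩
  · rintro ⟨h1, h2⟩
    refine h.in_of (fun h3 => absurd h3 hp.1) fun z hz => ?_
    obtain ⟨h3, h4⟩ := (hp.2 z).1 hz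
    refine h.in_of (fun h5 => absurd h5 h3) fun t ht => ?_
    rcases h4 with h4 | h4
    · rw [(h4 t).1 ht]; exact h1
    · rcases (h4 t).1 ht with rfl | rfl
      · exact h1
      · exact h2

/-! ### rank comparison -/

/-- the rank of `x` is at most the rank of `y` -/
def Rk (S : Str.{0}) (x y : S.M) : Prop :=
  ∃ r, Pr S r x y ∧ ∀ u v, Pr S r u v → ∀ u', S.mem u' u → ∃ v', S.mem v' v ∧ Pr S r u' v'

instance Df.rk (a b : (Fin n → S.M) → S.M) [Tm a] [Tm b] : Df (fun v => Rk S (a v) (b v)) :=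
  Df.app2 (P := fun x y => Rk S x y) (by unfold Rk; infer_instance) a b

theorem Rk.unf {x y : S.M} (h : Rk S x y) : ∀ u, S.mem u x → ∃ v, S.mem v y ∧ Rk S u v := by
  obtain ⟨r, h1, h2⟩ := h
  intro u hu
  obtain ⟨v, hv, h3⟩ := h2 x y h1 u hu
  exact ⟨v, hv, r, h3, h2⟩

theorem ZFCUR.rk_coind (h : ZFCUR S) (R : S.M → S.M → Prop)
    [Df (fun v : Fin 2 → S.M => R (v 0) (v 1))]
    (hR : ∀ u v, R u v → ∀ u', S.mem u' u → ∃ v', S.mem v' v ∧ R u' v') {x y : S.M}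
    (hxy : R x y) : Rk S x y := by
  obtain ⟨T, hT, hTr⟩ := h.exists_tc x
  obtain ⟨T', hT', hTr'⟩ := h.exists_tc y
  obtain ⟨r, -, -, hr⟩ := h.relSet R T T'
  refine ⟨r, (hr x y).2 ⟨hT, hT', hxy⟩, fun u v huv u' hu' => ?_⟩
  obtain ⟨h1, h2, h3⟩ := (hr u v).1 huv
  obtain ⟨v', h4, h5⟩ := hR u v h3 u' hu'
  exact ⟨v', h4, (hr u' v').2 ⟨hTr u h1 u' hu', hTr' v h2 v' h4, h5⟩⟩

theorem ZFCUR.rk_fold (h : ZFCUR S) {x y : S.M}
    (h1 : ∀ u, S.mem u x → ∃ v, S.mem v y ∧ Rk S u v) : Rk S x y := by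
  refine h.rk_coind (fun a b => Rk S a b ∨ (a = x ∧ b = y)) ?_ (Or.inr ⟨rfl, rfl⟩)
  rintro u v (h2 | ⟨rfl, rfl⟩) u' hu'
  · obtain ⟨v', h3, h4⟩ := h2.unf u' hu'
    exact ⟨v', h3, Or.inl h4⟩
  · obtain ⟨v', h3, h4⟩ := h1 u' hu'
    exact ⟨v', h3, Or.inl h4⟩

theorem ZFCUR.rk_refl (h : ZFCUR S) (x : S.M) : Rk S x x :=
  h.rk_coind (fun a b => a = b) (fun u v huv u' hu' => ⟨u', huv ▸ hu', rfl⟩) rfl

theorem ZFCUR.rk_trans (h : ZFCUR S) {x y z : S.M} (h1 : Rk S x y) (h2 : Rk S y z) :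
    Rk S x z := by
  refine h.rk_coind (fun a c => ∃ b, Rk S a b ∧ Rk S b c) ?_ ⟨y, h1, h2⟩
  rintro u v ⟨b, h3, h4⟩ u' hu'
  obtain ⟨b', h5, h6⟩ := h3.unf u' hu'
  obtain ⟨v', h7, h8⟩ := h4.unf b' h5
  exact ⟨v', h7, b', h6, h8⟩

theorem ZFCUR.rk_total (h : ZFCUR S) (x : S.M) :
    ∀ y, Rk S x y ∨ ∃ u, S.mem u x ∧ Rk S y u := by
  refine h.mem_ind (fun x => ∀ y, Rk S x y ∨ ∃ u, S.mem u x ∧ Rk S y u) ?_ x
  intro x ih y
  by_cases h1 : ∀ u, S.mem u x → ∃ v, S.mem v y ∧ Rk S u v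
  · exact Or.inl (h.rk_fold h1)
  · push Not at h1
    obtain ⟨u, hu, h2⟩ := h1
    refine Or.inr ⟨u, hu, h.rk_fold fun v hv => ?_⟩
    exact (ih u hu v).resolve_left (h2 v hv)

theorem ZFCUR.rk_set (h : ZFCUR S) (A y : S.M) :
    ∃ s, ¬ S.ur s ∧ ∀ x, S.mem x s ↔ In S A x ∧ Rk S x y := by
  refine h.mem_ind (fun y => ∃ s, ¬ S.ur s ∧ ∀ x, S.mem x s ↔ In S A x ∧ Rk S x y) ?_ y
  intro y ih
  obtain ⟨R, -, hR⟩ := h.rep (fun v s => ¬ S.ur s ∧ ∀ x, S.mem x s ↔ In S A x ∧ Rk S x v) y (by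
    intro v hv
    obtain ⟨s, hs⟩ := ih v hv
    exact ⟨s, hs, fun s' hs' => h.zcu.ext s' s hs'.1 hs.1 fun x => (hs'.2 x).trans (hs.2 x).symm⟩)
  obtain ⟨U, -, hU⟩ := h.zcu.union' R
  obtain ⟨P, -, hP⟩ := h.zcu.power' U
  obtain ⟨Q, -, hQ⟩ := h.zcu.union2 A P
  obtain ⟨s, hs, h1⟩ := h.sep (fun x => In S A x ∧ Rk S x y) Q
  refine ⟨s, hs, fun x => (h1 x).trans ⟨fun h2 => h2.2, fun h2 => ⟨(hQ x).2 ?_, h2⟩⟩⟩
  by_cases hx : S.ur x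
  · exact Or.inl (h2.1.ur hx)
  · refine Or.inr (hP x hx fun u hu => ?_)
    obtain ⟨v, hv, h3⟩ := h2.2.unf u hu
    obtain ⟨s', hs'⟩ := ih v hv
    exact (hU u).2 ⟨s', (hR s').2 ⟨v, hv, hs'⟩, (hs'.2 u).2 ⟨h2.1.mem hu, h3⟩⟩

theorem ZFCUR.rk_min (h : ZFCUR S) (K : S.M → Prop) [hK : Df (fun v : Fin 1 → S.M => K (v 0))]
    {x0 : S.M} (hx0 : K x0) : ∃ x, K x ∧ ∀ x', K x' → Rk S x x' := by
  have hK' : ∀ {n : ℕ} (a : (Fin n → S.M) → S.M) [Tm a], Df (fun v => K (a v)) :=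
    fun a _ => hK.app1 a
  by_contra hc
  have := h.mem_ind (fun y => ∀ x, K x → ¬ Rk S x y) (by
    intro y ih x hx hxy
    refine hc ⟨x, hx, fun x' hx' => ?_⟩
    rcases h.rk_total x x' with h1 | ⟨u, hu, h1⟩
    · exact h1
    · obtain ⟨v, hv, h2⟩ := hxy.unf u hu
      exact absurd (h.rk_trans h1 h2) (ih v hv x' hx')) x0
  exact this x0 hx0 (h.rk_refl x0)

end Pool.Agent.H254Z.GB
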